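import Mathlib
import Pool.Agent.Lib.MP_89bcae_ag.Xs.Defs

/-!
# Groups of automorphisms of a lattice over `ℤ_2` with two composition factors: the definitions
-/

open scoped Classical

namespace Pool.Agent.Lib.MP_89bcae_ag.Xg

open Pool.Agent.Lib.MP_89bcae_ag.Xs (Cst)

/-- The lattice. -/
abbrev Md (r : ℕ) : Type := Fin r → ℤ_[2]

/-- The automorphisms of the lattice. -/
abbrev Au (r : ℕ) : Type := Md r ≃ₗ[ℤ_[2]] Md r

/-- A chain of subgroups with `L (i + 2) = 2 L i`, of finite index. -/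
structure IsChain {r : ℕ} (L : ℕ → AddSubgroup (Md r)) : Prop where
  le : ∀ i, L (i + 1) ≤ L i
  two : ∀ i v, v ∈ L (i + 2) ↔ ∃ w ∈ L i, v = w + w
  big : ∃ k : ℕ, ∀ v, (2 : ℤ_[2]) ^ k • v ∈ L 0

/-- A filtration of a group, complete and separated, the quotients of which are abelian groups of exponent `2`. -/
structure IsFilt {G : Type} [Group G] (K : ℕ → Subgroup G) : Prop where
  conj : ∀ j, ∀ g ∈ K j, ∀ h : G, h * g * h⁻¹ ∈ K j
  le : ∀ j, K (j + 1) ≤ K j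
  sq : ∀ j, 1 ≤ j → ∀ g ∈ K j, g * g ∈ K (j + 1)
  comm : ∀ j, 1 ≤ j → ∀ g ∈ K j, ∀ h ∈ K j, g * h * g⁻¹ * h⁻¹ ∈ K (j + 1)
  sep : ∀ g, (∀ j, g ∈ K j) → g = 1
  lim : ∀ s : ℕ → G, (∀ j, s (j + 1) * (s j)⁻¹ ∈ K j) → ∃ g, ∀ j, g * (s j)⁻¹ ∈ K j

/-- The group `A / B` is contained in the heart of the permutation module: the functions `X → ℤ/2` of sum `0`, modulo the
constant functions. The group `G` acts through `q`. -/
structure IsHrt {r : ℕ} {G X : Type} [Group G] [Fintype X] (a : G →* Au r) (q : G →* Equiv.Perm X)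
    (A B : AddSubgroup (Md r)) (d : Md r → (X → ZMod 2) ⧸ Cst X) : Prop where
  add : ∀ v ∈ A, ∀ w ∈ A, d (v + w) = d v + d w
  ker : ∀ v ∈ A, d v = 0 ↔ v ∈ B
  sum : ∀ v ∈ A, ∃ f : X → ZMod 2, ∑ x, f x = 0 ∧ d v = QuotientAddGroup.mk f
  act : ∀ g, ∀ v ∈ A, ∀ f : X → ZMod 2, d v = QuotientAddGroup.mk f →
    d (a g v) = QuotientAddGroup.mk fun x => f ((q g)⁻¹ x)

section

variable {r : ℕ} {G X Y : Type} [Group G]

/-- The automorphism `a` shifts the chain by `j`, up to the identity. -/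
def IsNear (L : ℕ → AddSubgroup (Md r)) (j : ℕ) (a : Au r) : Prop := ∀ i, ∀ v ∈ L i, a v - v ∈ L (i + j)

lemma IsNear.mul {L : ℕ → AddSubgroup (Md r)} {j : ℕ} {a b : Au r} (ha : IsNear L j a) (hb : IsNear L j b)
    (hst : ∀ i, ∀ v ∈ L i, b v ∈ L i) : IsNear L j (a * b) := by
  intro i v hv
  have h1 := ha i (b v) (hst i v hv)
  have h2 := hb i v hv
  have h3 := (L (i + j)).add_mem h1 h2
  rwa [sub_add_sub_cancel] at h3

lemma IsNear.inv {L : ℕ → AddSubgroup (Md r)} {j : ℕ} {a : Au r} (ha : IsNear L j a)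
    (hst : ∀ i, ∀ v ∈ L i, a⁻¹ v ∈ L i) : IsNear L j a⁻¹ := by
  intro i v hv
  have h1 := ha i (a⁻¹ v) (hst i v hv)
  have h2 : a (a⁻¹ v) = v := LinearEquiv.apply_symm_apply a v
  rw [h2] at h1
  have h3 := (L (i + j)).neg_mem h1
  rwa [neg_sub] at h3

/-- The subgroups of the filtration: the elements which act trivially on `X` and on `Y` and which are near to the identity. -/
def Kg (a : G →* Au r) (qX : G →* Equiv.Perm X) (qY : G →* Equiv.Perm Y) (L : ℕ → AddSubgroup (Md r))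
    (hst : ∀ g i, ∀ v ∈ L i, a g v ∈ L i) (j : ℕ) : Subgroup G where
  carrier := {g | qX g = 1 ∧ qY g = 1 ∧ IsNear L j (a g)}
  one_mem' := by
    refine ⟨map_one _, map_one _, fun i v _ => ?_⟩
    rw [map_one]
    show v - v ∈ _
    rw [sub_self]
    exact (L _).zero_mem
  mul_mem' := by
    rintro g h ⟨h1, h2, h3⟩ ⟨h4, h5, h6⟩
    refine ⟨by rw [map_mul, h1, h4, mul_one], by rw [map_mul, h2, h5, mul_one], ?_⟩
    rw [map_mul]
    exact h3.mul h6 (hst h)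
  inv_mem' := by
    rintro g ⟨h1, h2, h3⟩
    refine ⟨by rw [map_inv, h1, inv_one], by rw [map_inv, h2, inv_one], ?_⟩
    rw [map_inv]
    refine h3.inv fun i v hv => ?_
    rw [← map_inv]
    exact hst _ i v hv

lemma mem_Kg {a : G →* Au r} {qX : G →* Equiv.Perm X} {qY : G →* Equiv.Perm Y} {L : ℕ → AddSubgroup (Md r)}
    {hst : ∀ g i, ∀ v ∈ L i, a g v ∈ L i} {j : ℕ} {g : G} :
    g ∈ Kg a qX qY L hst j ↔ qX g = 1 ∧ qY g = 1 ∧ IsNear L j (a g) := Iff.rfl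

/-- The closure of the image of a group `Γ` in the group of the automorphisms of the lattice and of the permutations. -/
def Cl {Γ : Type} [Group Γ] (A : Γ →* Au r) (qX : Γ →* Equiv.Perm X) (qY : Γ →* Equiv.Perm Y)
    (L : ℕ → AddSubgroup (Md r)) (hst : ∀ g i, ∀ v ∈ L i, A g v ∈ L i) :
    Subgroup (Au r × Equiv.Perm X × Equiv.Perm Y) where
  carrier := {x | (∀ i, ∀ v ∈ L i, x.1 v ∈ L i) ∧ (∀ i, ∀ v ∈ L i, x.1⁻¹ v ∈ L i) ∧
    ∀ j, ∃ γ, qX γ = x.2.1 ∧ qY γ = x.2.2 ∧ IsNear L j (A γ * x.1⁻¹)}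
  one_mem' := by
    refine ⟨fun i v hv => hv, fun i v hv => ?_, fun j => ⟨1, map_one _, map_one _, fun i v _ => ?_⟩⟩
    · exact hv
    · rw [map_one]
      show v - v ∈ _
      rw [sub_self]
      exact (L _).zero_mem
  mul_mem' := by
    rintro x y ⟨hx, hx', hx''⟩ ⟨hy, hy', hy''⟩
    refine ⟨fun i v hv => hx i _ (hy i v hv), fun i v hv => ?_, fun j => ?_⟩
    · have h1 : ((x * y).1⁻¹ : Au r) v = y.1⁻¹ (x.1⁻¹ v) := by
        show ((x.1 * y.1)⁻¹ : Au r) v = _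
        rw [mul_inv_rev]
        rfl
      rw [h1]
      exact hy' i _ (hx' i v hv)
    · obtain ⟨γ, h1, h2, h3⟩ := hx'' j
      obtain ⟨δ, h4, h5, h6⟩ := hy'' j
      refine ⟨γ * δ, by rw [map_mul, h1, h4]; rfl, by rw [map_mul, h2, h5]; rfl, fun i v hv => ?_⟩
      have e1 : (A (γ * δ) * (x * y).1⁻¹ : Au r) v = A γ ((A δ * y.1⁻¹ : Au r) (x.1⁻¹ v)) := by
        show (A (γ * δ) * (x.1 * y.1)⁻¹ : Au r) v = _
        rw [mul_inv_rev, map_mul, mul_assoc, ← mul_assoc (A δ)]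
        rfl
      rw [e1]
      have h7 := h6 i _ (hx' i v hv)
      have h8 := hst γ _ _ h7
      rw [map_sub] at h8
      have h9 := h3 i v hv
      have h10 : (A γ * x.1⁻¹ : Au r) v = A γ (x.1⁻¹ v) := rfl
      rw [h10] at h9
      have h11 := (L (i + j)).add_mem h8 h9
      rwa [sub_add_sub_cancel] at h11
  inv_mem' := by
    rintro x ⟨hx, hx', hx''⟩
    refine ⟨hx', fun i v hv => ?_, fun j => ?_⟩
    · have h1 : ((x⁻¹).1⁻¹ : Au r) = x.1 := inv_inv x.1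
      rw [h1]
      exact hx i v hv
    · obtain ⟨γ, h1, h2, h3⟩ := hx'' j
      refine ⟨γ⁻¹, by rw [map_inv, h1]; rfl, by rw [map_inv, h2]; rfl, fun i v hv => ?_⟩
      have h4 : ((x⁻¹).1⁻¹ : Au r) = x.1 := inv_inv x.1
      rw [h4]
      have h5 := h3 i (x.1 v) (hx i v hv)
      have h6 : (A γ * x.1⁻¹ : Au r) (x.1 v) = A γ v := by
        show A γ (x.1⁻¹ (x.1 v)) = _
        congr 1
        exact LinearEquiv.symm_apply_apply x.1 v
      rw [h6] at h5
      have h7 := hst γ⁻¹ _ _ h5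
      rw [map_sub] at h7
      have h8 : A γ⁻¹ (A γ v) = v := by
        rw [map_inv]
        exact LinearEquiv.symm_apply_apply (A γ) v
      rw [h8] at h7
      have h9 := (L (i + j)).neg_mem h7
      rw [neg_sub] at h9
      exact h9

end

end Pool.Agent.Lib.MP_89bcae_ag.Xg
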