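import Mathlib
import Pool.Agent.Lib.MP_89bcae_ag.Xg.Defs

/-!
# Chains of lattices: the basic lemmas
-/

open scoped Classical

namespace Pool.Agent.Lib.MP_89bcae_ag.Xg

section

variable {r : ℕ} {L : ℕ → AddSubgroup (Md r)}

lemma IsChain.anti (hL : IsChain L) {i j : ℕ} (h : i ≤ j) : L j ≤ L i := by
  induction j, h using Nat.le_induction with
  | base => exact le_rfl
  | succ j _ ih => exact (hL.le j).trans ih

lemma add_self_inj {v w : Md r} (h : v + v = w + w) : v = w := by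
  have h1 : (2 : ℤ_[2]) • v = (2 : ℤ_[2]) • w := by rw [two_smul, two_smul, h]
  exact smul_right_injective _ two_ne_zero h1

lemma IsChain.add_self_iff (hL : IsChain L) {i : ℕ} {v : Md r} : v + v ∈ L (i + 2) ↔ v ∈ L i := by
  rw [hL.two]
  constructor
  · rintro ⟨w, hw, h⟩
    rwa [add_self_inj h]
  · exact fun h => ⟨v, h, rfl⟩

lemma IsChain.pow_smul_iff (hL : IsChain L) {i k : ℕ} {v : Md r} :
    (2 : ℤ_[2]) ^ k • v ∈ L (i + 2 * k) ↔ v ∈ L i := by
  induction k generalizing v with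
  | zero => rw [pow_zero, one_smul, mul_zero, add_zero]
  | succ k ih =>
    have h1 : (2 : ℤ_[2]) ^ (k + 1) • v = (2 : ℤ_[2]) ^ k • v + (2 : ℤ_[2]) ^ k • v := by
      rw [pow_succ', mul_smul, two_smul]
    rw [h1, show i + 2 * (k + 1) = (i + 2 * k) + 2 by ring, hL.add_self_iff, ih]

/-- The elements of `L (i + 2 k)` are the products of `2 ^ k` and of elements of `L i`. -/
lemma IsChain.exists_pow (hL : IsChain L) {i k : ℕ} {v : Md r} (h : v ∈ L (i + 2 * k)) :
    ∃ w ∈ L i, v = (2 : ℤ_[2]) ^ k • w := by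
  induction k generalizing v with
  | zero => exact ⟨v, by simpa using h, by rw [pow_zero, one_smul]⟩
  | succ k ih =>
    rw [show i + 2 * (k + 1) = (i + 2 * k) + 2 by ring, hL.two] at h
    obtain ⟨u, hu, rfl⟩ := h
    obtain ⟨w, hw, rfl⟩ := ih hu
    exact ⟨w, hw, by rw [pow_succ', mul_smul, two_smul]⟩

lemma nat_smul_mem {i : ℕ} {v : Md r} (n : ℕ) (h : v ∈ L i) : (n : ℤ_[2]) • v ∈ L i := by
  rw [Nat.cast_smul_eq_nsmul]
  exact (L i).nsmul_mem h n

lemma IsChain.exists_all (hL : IsChain L) (j : ℕ) : ∃ k : ℕ, ∀ v, (2 : ℤ_[2]) ^ k • v ∈ L j := by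
  obtain ⟨k, hk⟩ := hL.big
  refine ⟨j + k, fun v => ?_⟩
  have h1 := (hL.pow_smul_iff (k := j)).2 (hk v)
  rw [smul_smul, ← pow_add] at h1
  exact hL.anti (by omega) h1

/-- The subgroups of a chain are submodules. -/
lemma IsChain.smul_mem (hL : IsChain L) {i : ℕ} {v : Md r} (c : ℤ_[2]) (h : v ∈ L i) : c • v ∈ L i := by
  obtain ⟨k, hk⟩ := hL.exists_all i
  have h1 := PadicInt.appr_spec k c
  rw [Ideal.mem_span_singleton] at h1
  obtain ⟨d, hd⟩ := h1
  have h2 : c • v = ((c.appr k : ℕ) : ℤ_[2]) • v + (2 : ℤ_[2]) ^ k • (d • v) := by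
    rw [smul_smul, ← add_smul]
    congr 1
    have h3 : (((2 : ℕ) : ℤ_[2]) ^ k) = (2 : ℤ_[2]) ^ k := by norm_num
    rw [h3] at hd
    linear_combination hd
  rw [h2]
  exact (L i).add_mem (nat_smul_mem _ h) (hk _)

lemma IsChain.shift (hL : IsChain L) : IsChain fun i => L (i + 1) where
  le := fun i => hL.le _
  two := fun i v => hL.two _ v
  big := by
    obtain ⟨k, hk⟩ := hL.exists_all 1
    exact ⟨k, hk⟩

lemma IsNear.mono (hL : IsChain L) {j j' : ℕ} (h : j ≤ j') {a : Au r} (ha : IsNear L j' a) : IsNear L j a :=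
  fun i v hv => hL.anti (by omega) (ha i v hv)

lemma IsNear.stable (hL : IsChain L) {j : ℕ} {a : Au r} (ha : IsNear L j a) : ∀ i, ∀ v ∈ L i, a v ∈ L i := by
  intro i v hv
  have h1 := (L i).add_mem (hL.anti (Nat.le_add_right i j) (ha i v hv)) hv
  rwa [sub_add_cancel] at h1

lemma sub_add_self (a : Au r) (w : Md r) : a (w + w) - (w + w) = (a w - w) + (a w - w) := by
  rw [map_add]
  abel

/-- It is enough to look at `L 0` and `L 1`. -/
lemma near_iff (hL : IsChain L) {j : ℕ} {a : Au r} :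
    IsNear L j a ↔ (∀ v ∈ L 0, a v - v ∈ L j) ∧ ∀ v ∈ L 1, a v - v ∈ L (j + 1) := by
  constructor
  · intro h
    exact ⟨fun v hv => by simpa using h 0 v hv, fun v hv => by simpa [add_comm] using h 1 v hv⟩
  · rintro ⟨h0, h1⟩ i
    induction i using Nat.strong_induction_on with
    | _ i ih =>
      intro v hv
      rcases i with _ | _ | i
      · simpa using h0 v hv
      · simpa [add_comm] using h1 v hv
      · obtain ⟨w, hw, rfl⟩ := (hL.two i v).1 hv
        rw [sub_add_self, show i + 1 + 1 + j = (i + j) + 2 by ring, hL.add_self_iff]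
        exact ih i (by omega) w hw

/-- The nearness for the shifted chain. -/
lemma near_shift (hL : IsChain L) {j : ℕ} {a : Au r} : IsNear (fun i => L (i + 1)) j a ↔ IsNear L j a := by
  constructor
  · intro h i v hv
    have h1 : a (v + v) - (v + v) ∈ L (i + 1 + j + 1) := h (i + 1) (v + v) (hL.add_self_iff.2 hv)
    rw [sub_add_self, show i + 1 + j + 1 = (i + j) + 2 by ring, hL.add_self_iff] at h1
    exact h1
  · intro h i v hv
    have h1 := h (i + 1) v hv
    rwa [show i + 1 + j = i + j + 1 by ring] at h1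

lemma near_one (j : ℕ) : IsNear L j (1 : Au r) := by
  intro i v _
  show v - v ∈ _
  rw [sub_self]
  exact (L _).zero_mem

/-- The leading term of level `i` of the automorphism `a` is injective. -/
structure Lev (L : ℕ → AddSubgroup (Md r)) (i : ℕ) (a : Au r) : Prop where
  near : IsNear L (2 * i) a
  inj0 : ∀ v ∈ L 0, a v - v ∈ L (2 * i + 1) → v ∈ L 1
  inj1 : ∀ v ∈ L 1, a v - v ∈ L (2 * i + 2) → v ∈ L 2

/-- The leading term of level `i` of the automorphism `h` acts on `L 1 / L 2` as `0` or as `1`. -/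
def IsScalar (L : ℕ → AddSubgroup (Md r)) (i : ℕ) (h : Au r) : Prop :=
  (∀ v ∈ L 1, h v - v ∈ L (2 * i + 2)) ∨ ∀ v ∈ L 1, h v - v - (2 : ℤ_[2]) ^ i • v ∈ L (2 * i + 2)

end

end Pool.Agent.Lib.MP_89bcae_ag.Xg
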