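import Mathlib
import Pool.Agent.Lib.MP_89bcae_ag.Xg.Defs

/-!
# Two lifts of odd order are conjugate
-/

open scoped Classical

namespace Pool.Agent.Lib.MP_89bcae_ag.Xg

section

variable {G : Type} [Group G] {K : ℕ → Subgroup G}

/-- The elements `z_i = g' ^ i g ^ -i`. -/
private def conj_z (g g' : G) (i : ℕ) : G := g' ^ i * (g ^ i)⁻¹

/-- The products `z_0 z_1 .. z_(i-1)`. -/
private def conj_p (g g' : G) : ℕ → G
  | 0 => 1
  | i + 1 => conj_p g g' i * conj_z g g' i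

private theorem conj_z_succ (g g' : G) (i : ℕ) :
    conj_z g g' (i + 1) = (g' * conj_z g g' i * g'⁻¹) * (g' * g⁻¹) := by
  unfold conj_z
  rw [pow_succ' g', pow_succ g, mul_inv_rev, ← mul_assoc, ← pow_succ' g' i]
  have h : (g ^ i * g)⁻¹ = (g ^ i)⁻¹ * g⁻¹ := by
    rw [← pow_succ, pow_succ', mul_inv_rev]
  simp only [pow_succ', mul_assoc, inv_mul_cancel_left]
  congr 2
  have h2 : g ^ i * g = g * g ^ i := by rw [← pow_succ, pow_succ']
  have h3 : (g ^ i)⁻¹ * g⁻¹ = g⁻¹ * (g ^ i)⁻¹ := by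
    rw [← mul_inv_rev, ← mul_inv_rev, h2]
  rw [h3]

private theorem conj_z_mem (hK : IsFilt K) {g g' : G} {j : ℕ} (h : g' * g⁻¹ ∈ K j) (i : ℕ) :
    conj_z g g' i ∈ K j := by
  induction i with
  | zero =>
    have h0 : conj_z g g' 0 = 1 := by simp [conj_z]
    rw [h0]
    exact (K j).one_mem
  | succ i ih =>
    rw [conj_z_succ]
    exact (K j).mul_mem (hK.conj j _ ih g') h

private theorem conj_p_mem (hK : IsFilt K) {g g' : G} {j : ℕ} (h : g' * g⁻¹ ∈ K j) (i : ℕ) :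
    conj_p g g' i ∈ K j := by
  induction i with
  | zero => exact (K j).one_mem
  | succ i ih => exact (K j).mul_mem ih (conj_z_mem hK h i)

/-- One step. -/
private theorem conj_step (hK : IsFilt K) {g g' : G} {m : ℕ} (hm : Odd m) (hg : g ^ m = 1)
    (hg' : g' ^ m = 1) {j : ℕ} (hj : 1 ≤ j) (h : g' * g⁻¹ ∈ K j) :
    ∃ κ ∈ K j, g' * (κ * g * κ⁻¹)⁻¹ ∈ K (j + 1) := by
  refine ⟨conj_p g g' m, conj_p_mem hK h m, ?_⟩
  have hN : (K (j + 1)).Normal := ⟨fun n hn x => hK.conj (j + 1) n hn x⟩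
  have hmem : ∀ x : G, x ∈ K (j + 1) → (x : G ⧸ K (j + 1)) = 1 := fun x hx =>
    (QuotientGroup.eq_one_iff x).2 hx
  have hcm : ∀ x ∈ K j, ∀ y ∈ K j, (x : G ⧸ K (j + 1)) * y = y * x := by
    intro x hx y hy
    have h1 := hmem _ (hK.comm j hj x hx y hy)
    rw [QuotientGroup.mk_mul, QuotientGroup.mk_mul, QuotientGroup.mk_mul, QuotientGroup.mk_inv,
      QuotientGroup.mk_inv, mul_inv_eq_one, mul_inv_eq_iff_eq_mul] at h1
    exact h1
  have hsq : ∀ x ∈ K j, (x : G ⧸ K (j + 1)) * x = 1 := by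
    intro x hx
    have h1 := hmem _ (hK.sq j hj x hx)
    rwa [QuotientGroup.mk_mul] at h1
  have hz1 : conj_z g g' 1 = g' * g⁻¹ := by simp [conj_z]
  -- the conjugates of the `z_i`
  have hc : ∀ i, (g : G ⧸ K (j + 1)) * (conj_z g g' i : G) * (g : G ⧸ K (j + 1))⁻¹ =
      ((g' * g⁻¹ : G) : G ⧸ K (j + 1)) * (conj_z g g' (i + 1) : G) := by
    intro i
    have h1 : g * conj_z g g' i * g⁻¹ = (g' * g⁻¹)⁻¹ * conj_z g g' (i + 1) := by
      rw [conj_z_succ]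
      have h2 : g' ^ i * g' = g' * g' ^ i := by rw [← pow_succ, pow_succ']
      have h3 : g' * conj_z g g' i * g'⁻¹ * (g' * g⁻¹) = g' * conj_z g g' i * g⁻¹ := by group
      rw [h3]
      group
    have h4 := congrArg (fun x : G => (x : G ⧸ K (j + 1))) h1
    simp only [QuotientGroup.mk_mul, QuotientGroup.mk_inv] at h4 ⊢
    rw [h4]
    congr 1
    rw [inv_eq_iff_mul_eq_one]
    have h5 := hsq _ h
    rw [QuotientGroup.mk_mul, QuotientGroup.mk_inv] at h5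
    exact h5
  have hind : ∀ i, (g : G ⧸ K (j + 1)) * (conj_p g g' i : G) * (g : G ⧸ K (j + 1))⁻¹ =
      ((g' * g⁻¹ : G) : G ⧸ K (j + 1)) ^ i * (conj_p g g' (i + 1) : G) := by
    intro i
    induction i with
    | zero =>
      have h0 : conj_p g g' 0 = 1 := rfl
      have h1 : conj_p g g' (0 + 1) = 1 := by simp [conj_p, conj_z]
      rw [h0, h1, QuotientGroup.mk_one, mul_one, mul_inv_cancel, pow_zero, mul_one]
    | succ i ih =>
      have h1 : (g : G ⧸ K (j + 1)) * (conj_p g g' (i + 1) : G) * (g : G ⧸ K (j + 1))⁻¹ =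
          ((g : G ⧸ K (j + 1)) * (conj_p g g' i : G) * (g : G ⧸ K (j + 1))⁻¹) *
          ((g : G ⧸ K (j + 1)) * (conj_z g g' i : G) * (g : G ⧸ K (j + 1))⁻¹) := by
        show (g : G ⧸ K (j + 1)) * ((conj_p g g' i * conj_z g g' i : G) : G ⧸ K (j + 1)) * _ = _
        rw [QuotientGroup.mk_mul]
        group
      rw [h1, ih, hc i]
      have h2 : ((conj_p g g' (i + 1 + 1) : G) : G ⧸ K (j + 1)) =
          (conj_p g g' (i + 1) : G) * (conj_z g g' (i + 1) : G) := QuotientGroup.mk_mul _ _ _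
      rw [h2, pow_succ, mul_assoc, mul_assoc, ← mul_assoc ((conj_p g g' (i + 1) : G) : G ⧸ K (j + 1)),
        hcm _ (conj_p_mem hK h (i + 1)) _ h, mul_assoc]
  have hzm : conj_z g g' m = 1 := by
    unfold conj_z
    rw [hg, hg', inv_one, mul_one]
  have hfin := hind m
  have h1 : conj_p g g' (m + 1) = conj_p g g' m := by
    show conj_p g g' m * conj_z g g' m = _
    rw [hzm, mul_one]
  have h2 : ((g' * g⁻¹ : G) : G ⧸ K (j + 1)) ^ m = ((g' * g⁻¹ : G) : G ⧸ K (j + 1)) := by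
    obtain ⟨k, hk⟩ := hm
    rw [hk, pow_succ, pow_mul, pow_two, hsq _ h, one_pow, one_mul]
  rw [h1, h2, mul_inv_eq_iff_eq_mul] at hfin
  have h3 := hsq _ h
  -- `g κ = z_1 κ g`
  refine (QuotientGroup.eq_one_iff _).1 ?_
  rw [QuotientGroup.mk_mul, QuotientGroup.mk_inv, QuotientGroup.mk_mul, QuotientGroup.mk_mul,
    QuotientGroup.mk_inv]
  have h4 : ((g' * g⁻¹ : G) : G ⧸ K (j + 1)) * ((g : G ⧸ K (j + 1)) * (conj_p g g' m : G)) =
      (conj_p g g' m : G) * g := by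
    rw [hfin, ← mul_assoc, ← mul_assoc, h3, one_mul]
  rw [QuotientGroup.mk_mul, QuotientGroup.mk_inv] at h4
  have h5 : (g' : G ⧸ K (j + 1)) * (conj_p g g' m : G) = (conj_p g g' m : G) * g := by
    rw [← h4]
    group
  rw [mul_inv_eq_one, ← h5]
  group

/-- G2 (file `Xg/Conj.lean`): two lifts of odd order are conjugate. -/
theorem exists_conj (hK : IsFilt K) {g g' : G} {m : ℕ} (hm : Odd m) (hg : g ^ m = 1) (hg' : g' ^ m = 1)
    (h : g' * g⁻¹ ∈ K 1) : ∃ κ ∈ K 1, g' = κ * g * κ⁻¹ := by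
  have hle : ∀ {i j : ℕ}, i ≤ j → K j ≤ K i := by
    intro i j hij
    induction j, hij using Nat.le_induction with
    | base => exact le_rfl
    | succ j _ ih => exact (hK.le j).trans ih
  have hstep : ∀ j (c : {c : G // c ∈ K 1 ∧ g' * (c * g * c⁻¹)⁻¹ ∈ K (j + 1)}),
      ∃ c' : {c : G // c ∈ K 1 ∧ g' * (c * g * c⁻¹)⁻¹ ∈ K (j + 1 + 1)},
        c'.1 * c.1⁻¹ ∈ K (j + 1) := by
    rintro j ⟨c, hc, hc'⟩
    have h1 : (c * g * c⁻¹) ^ m = 1 := by
      rw [conj_pow, hg, mul_one, mul_inv_cancel]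
    obtain ⟨κ, h2, h3⟩ := conj_step hK hm h1 hg' (Nat.succ_le_succ (Nat.zero_le j)) hc'
    refine ⟨⟨κ * c, (K 1).mul_mem (hle (Nat.succ_le_succ (Nat.zero_le j)) h2) hc, ?_⟩, ?_⟩
    · have h4 : κ * c * g * (κ * c)⁻¹ = κ * (c * g * c⁻¹) * κ⁻¹ := by group
      rw [h4]
      exact h3
    · show κ * c * c⁻¹ ∈ _
      rw [mul_inv_cancel_right]
      exact h2
  choose F hF using hstep
  have h0 : (1 : G) ∈ K 1 ∧ g' * (1 * g * 1⁻¹)⁻¹ ∈ K (0 + 1) := by
    refine ⟨(K 1).one_mem, ?_⟩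
    rw [one_mul, inv_one, mul_one]
    exact h
  obtain ⟨s, hs⟩ : ∃ s : ∀ j, {c : G // c ∈ K 1 ∧ g' * (c * g * c⁻¹)⁻¹ ∈ K (j + 1)},
      ∀ j, s (j + 1) = F j (s j) :=
    ⟨fun j => Nat.rec ⟨1, h0⟩ (fun j c => F j c) j, fun j => rfl⟩
  obtain ⟨κ, hκ⟩ := hK.lim (fun j => (s j).1) fun j => by
    show (s (j + 1)).1 * (s j).1⁻¹ ∈ K j
    rw [hs]
    exact hle (Nat.le_succ j) (hF j (s j))
  refine ⟨κ, ?_, ?_⟩
  · have h1 := (K 1).mul_mem (hκ 1) (s 1).2.1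
    rwa [inv_mul_cancel_right] at h1
  · rw [← mul_inv_eq_one]
    refine hK.sep _ fun j => ?_
    have h1 := hκ j
    have h2 := hle (Nat.le_succ j) (s j).2.2
    set a : G := (s j).1 * g * (s j).1⁻¹ with ha
    set k : G := κ * (s j).1⁻¹ with hk
    have h3 : g' * (κ * g * κ⁻¹)⁻¹ = (g' * k * g'⁻¹) * (g' * a⁻¹) * k⁻¹ := by
      rw [ha, hk]
      group
    rw [h3]
    exact (K j).mul_mem ((K j).mul_mem (hK.conj j _ h1 g') h2) ((K j).inv_mem h1)

end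

end Pool.Agent.Lib.MP_89bcae_ag.Xg
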