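import Mathlib
import Pool.Agent.Lib.MP_89bcae_ag.Xg.Defs

/-!
# Coprime action (row G4)
-/

open scoped Classical

namespace Pool.Agent.Lib.MP_89bcae_ag.Xg

variable {G : Type} [Group G]

/-- G4: coprime action. -/
theorem comm_of_odd {D : ℕ → Subgroup G} (hconj : ∀ j, ∀ g ∈ D j, ∀ h : G, h * g * h⁻¹ ∈ D j)
    (hle : ∀ j, D (j + 1) ≤ D j) (hsq : ∀ j, ∀ g ∈ D j, g * g ∈ D (j + 1)) (hsep : ∀ g, (∀ j, g ∈ D j) → g = 1)
    {s : G} {m : ℕ} (hm : Odd m) (hs : s ^ m = 1) (hs' : ∀ j, ∀ g ∈ D j, s * g * s⁻¹ * g⁻¹ ∈ D (j + 1)) {g : G}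
    (hg : g ∈ D 0) : s * g = g * s := by
  obtain ⟨c, hc⟩ : ∃ c, c = s * g * s⁻¹ * g⁻¹ := ⟨_, rfl⟩
  have hcg : s * g * s⁻¹ = c * g := by rw [hc]; group
  have step : ∀ j, c ∈ D j → c ∈ D (j + 1) := by
    intro j hj
    -- modulo `D (j + 1)`, `s ^ n g s ^ -n = c ^ n g`
    have h1 : ∀ n : ℕ, s ^ n * g * (s ^ n)⁻¹ * g⁻¹ * (c ^ n)⁻¹ ∈ D (j + 1) := by
      intro n
      induction n with
      | zero => simp
      | succ n ih =>
        obtain ⟨d, hd⟩ : ∃ d, d = s ^ n * g * (s ^ n)⁻¹ * g⁻¹ * (c ^ n)⁻¹ := ⟨_, rfl⟩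
        rw [← hd] at ih
        have e1 : s ^ n * g * (s ^ n)⁻¹ = d * c ^ n * g := by rw [hd]; group
        have h2 : s * c ^ n * s⁻¹ * (c ^ n)⁻¹ ∈ D (j + 1) := hs' j _ ((D j).pow_mem hj n)
        have e2 : s ^ (n + 1) * g * (s ^ (n + 1))⁻¹ * g⁻¹ * (c ^ (n + 1))⁻¹ =
            (s * d * s⁻¹) * (s * c ^ n * s⁻¹ * (c ^ n)⁻¹) := by
          have e3 : s ^ (n + 1) * g * (s ^ (n + 1))⁻¹ = s * (s ^ n * g * (s ^ n)⁻¹) * s⁻¹ := by
            rw [pow_succ']; group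
          rw [e3, e1]
          calc s * (d * c ^ n * g) * s⁻¹ * g⁻¹ * (c ^ (n + 1))⁻¹
              = (s * d * s⁻¹) * (s * c ^ n * s⁻¹) * (s * g * s⁻¹) * g⁻¹ * (c ^ (n + 1))⁻¹ := by group
            _ = (s * d * s⁻¹) * (s * c ^ n * s⁻¹) * (c * g) * g⁻¹ * (c ^ (n + 1))⁻¹ := by rw [hcg]
            _ = _ := by rw [pow_succ]; group
        rw [e2]
        exact (D (j + 1)).mul_mem (hconj _ _ ih s) h2
    have h3 := h1 m
    rw [hs] at h3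
    have h4 : (c ^ m)⁻¹ ∈ D (j + 1) := by
      have e4 : (1 : G) * g * 1⁻¹ * g⁻¹ * (c ^ m)⁻¹ = (c ^ m)⁻¹ := by group
      rwa [e4] at h3
    have h5 : c ^ m ∈ D (j + 1) := by
      have := (D (j + 1)).inv_mem h4
      rwa [inv_inv] at this
    obtain ⟨k, hk⟩ := hm
    have h6 : (c * c) ^ k ∈ D (j + 1) := (D (j + 1)).pow_mem (hsq j c hj) k
    have h7 : c ^ m = (c * c) ^ k * c := by
      rw [hk, pow_succ, pow_mul, pow_two]
    rw [h7] at h5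
    exact ((D (j + 1)).mul_mem_cancel_left h6).1 h5
  have h0 : c ∈ D 0 := by
    have := hs' 0 g hg
    rw [← hc] at this
    exact hle 0 this
  have h1 : c = 1 := by
    refine hsep c fun j => ?_
    induction j with
    | zero => exact h0
    | succ j ih => exact step j ih
  rw [h1, one_mul] at hcg
  rwa [mul_inv_eq_iff_eq_mul] at hcg

end Pool.Agent.Lib.MP_89bcae_ag.Xg
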