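import Mathlib
import Pool.Agent.Lib.MP_89bcae_ag.Xg.Defs

/-!
# The filtration of a centralizer (row G3)
-/

open scoped Classical

namespace Pool.Agent.Lib.MP_89bcae_ag.Xg

variable {G : Type} [Group G] {K : ℕ → Subgroup G}

/-- G3: the filtration of a centralizer. -/
theorem filt_centralizer (hK : IsFilt K) (g : G) :
    IsFilt fun j => (K j).subgroupOf (Subgroup.centralizer {g}) where
  conj := by
    intro j x hx h
    rw [Subgroup.mem_subgroupOf] at hx ⊢
    exact hK.conj j x hx h
  le := by
    intro j x hx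
    rw [Subgroup.mem_subgroupOf] at hx ⊢
    exact hK.le j hx
  sq := by
    intro j hj x hx
    rw [Subgroup.mem_subgroupOf] at hx ⊢
    exact hK.sq j hj x hx
  comm := by
    intro j hj x hx y hy
    rw [Subgroup.mem_subgroupOf] at hx hy ⊢
    exact hK.comm j hj x hx y hy
  sep := by
    intro x hx
    apply Subtype.ext
    refine hK.sep x fun j => ?_
    exact hx j
  lim := by
    intro s hs
    obtain ⟨x, hx⟩ := hK.lim (fun j => (s j : G)) (fun j => by
      have := hs j
      rw [Subgroup.mem_subgroupOf] at this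
      exact this)
    have hc : x ∈ Subgroup.centralizer {g} := by
      rw [Subgroup.mem_centralizer_singleton_iff]
      have h1 : x * g * x⁻¹ * g⁻¹ = 1 := by
        refine hK.sep _ fun j => ?_
        have h2 := hx j
        have h3 : (s j : G) * g = g * s j := Subgroup.mem_centralizer_singleton_iff.1 (s j).2
        have h4 : (s j : G) * g * (s j : G)⁻¹ = g := by rw [h3, mul_assoc, mul_inv_cancel, mul_one]
        have h5 : x * g * x⁻¹ * g⁻¹ =
            (x * (s j : G)⁻¹) * (g * (x * (s j : G)⁻¹)⁻¹ * g⁻¹) := by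
          have h6 : (s j : G)⁻¹ * g = g * (s j : G)⁻¹ := by
            rw [inv_mul_eq_iff_eq_mul, ← mul_assoc, h4]
          calc x * g * x⁻¹ * g⁻¹ = x * (s j : G)⁻¹ * ((s j : G) * g * (s j : G)⁻¹) * (s j : G) *
                x⁻¹ * g⁻¹ := by group
            _ = _ := by rw [h4]; group
        rw [h5]
        exact (K j).mul_mem h2 (hK.conj j _ ((K j).inv_mem h2) g)
      have h7 : x * g * x⁻¹ = g := by rwa [mul_inv_eq_one] at h1
      rwa [mul_inv_eq_iff_eq_mul] at h7
    refine ⟨⟨x, hc⟩, fun j => ?_⟩
    rw [Subgroup.mem_subgroupOf]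
    exact hx j

end Pool.Agent.Lib.MP_89bcae_ag.Xg
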