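import Mathlib
import Pool.Agent.Lib.MP_89bcae_ag.Xg.Chain

/-!
# The subgroups of the filtration are of finite index
-/

open scoped Classical

namespace Pool.Agent.Lib.MP_89bcae_ag.Xg

section

variable {r : ℕ} {X Y : Type}

/-- A subgroup which contains `2 ^ k Md` is of finite index. -/
private lemma G7_fin (M : AddSubgroup (Md r)) {k : ℕ} (hk : ∀ v : Md r, (2 : ℤ_[2]) ^ k • v ∈ M) :
    Finite (Md r ⧸ M) := by
  refine Finite.of_surjective (fun u : Fin r → Fin (2 ^ k) =>
    (QuotientAddGroup.mk (fun i => ((u i : ℕ) : ℤ_[2])) : Md r ⧸ M)) ?_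
  intro q
  obtain ⟨v, rfl⟩ := QuotientAddGroup.mk_surjective q
  refine ⟨fun i => ⟨(v i).appr k, (v i).appr_lt k⟩, ?_⟩
  rw [QuotientAddGroup.eq]
  have h1 : ∀ i, ∃ d : ℤ_[2], v i - ((v i).appr k : ℤ_[2]) = (2 : ℤ_[2]) ^ k * d := by
    intro i
    have h2 := PadicInt.appr_spec k (v i)
    rw [Ideal.mem_span_singleton] at h2
    obtain ⟨d, hd⟩ := h2
    exact ⟨d, by rw [hd]; norm_num⟩
  choose d hd using h1
  have h3 : -(fun i => (((v i).appr k : ℕ) : ℤ_[2])) + v = (2 : ℤ_[2]) ^ k • d := by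
    funext i
    rw [Pi.add_apply, Pi.neg_apply, Pi.smul_apply, smul_eq_mul, ← hd i]
    ring
  show -(fun i => (((v i).appr k : ℕ) : ℤ_[2])) + v ∈ M
  rw [h3]
  exact hk d

/-- G7 (file `Xg/Fin.lean`): the subgroups of the filtration are of finite index. -/
theorem finiteIndex_Kg {G : Type} [Group G] [Finite X] [Finite Y] (a : G →* Au r) (qX : G →* Equiv.Perm X)
    (qY : G →* Equiv.Perm Y) {L : ℕ → AddSubgroup (Md r)} (hL : IsChain L) (hst : ∀ g i, ∀ v ∈ L i, a g v ∈ L i)
    (j : ℕ) : (Kg a qX qY L hst j).FiniteIndex := by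
  obtain ⟨k, hk⟩ := hL.exists_all (j + 1)
  have hfin : Finite (Md r ⧸ L (j + 1)) := G7_fin _ hk
  let f : G → ((Md r ⧸ L (j + 1)) → (Md r ⧸ L (j + 1))) × Equiv.Perm X × Equiv.Perm Y :=
    fun g => (fun q => QuotientAddGroup.mk (a g q.out), qX g, qY g)
  have key : ∀ g h : G, f g = f h → g⁻¹ * h ∈ Kg a qX qY L hst j := by
    intro g h hgh
    have h1 : ∀ q : Md r ⧸ L (j + 1), (QuotientAddGroup.mk (a g q.out) : Md r ⧸ L (j + 1)) =
        QuotientAddGroup.mk (a h q.out) := fun q => congrFun (congrArg Prod.fst hgh) q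
    have h2 : qX g = qX h := congrArg (fun z => z.2.1) hgh
    have h3 : qY g = qY h := congrArg (fun z => z.2.2) hgh
    have h4 : ∀ v : Md r, a h v - a g v ∈ L (j + 1) := by
      intro v
      have h5 := h1 (QuotientAddGroup.mk v)
      rw [QuotientAddGroup.eq] at h5
      have h6 : -v + (QuotientAddGroup.mk v : Md r ⧸ L (j + 1)).out ∈ L (j + 1) := by
        rw [← QuotientAddGroup.eq]
        exact (QuotientAddGroup.out_eq' _).symm
      have h7 := hst g _ _ h6
      have h8 := hst h _ _ h6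
      rw [map_add, map_neg] at h7 h8
      have h9 := (L (j + 1)).add_mem h7 (((L (j + 1)).add_mem h5 ((L (j + 1)).neg_mem h8)))
      have h10 : -(a g) v + (a g) (QuotientAddGroup.mk v : Md r ⧸ L (j + 1)).out +
          (-(a g) (QuotientAddGroup.mk v : Md r ⧸ L (j + 1)).out +
            (a h) (QuotientAddGroup.mk v : Md r ⧸ L (j + 1)).out +
            -(-(a h) v + (a h) (QuotientAddGroup.mk v : Md r ⧸ L (j + 1)).out)) =
          a h v - a g v := by
        abel
      rw [h10] at h9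
      exact h9
    have h11 : ∀ v : Md r, a (g⁻¹ * h) v - v ∈ L (j + 1) := by
      intro v
      have h12 := hst g⁻¹ _ _ (h4 v)
      rw [map_sub] at h12
      have h13 : a g⁻¹ (a h v) = a (g⁻¹ * h) v := by
        rw [map_mul]
        rfl
      have h14 : a g⁻¹ (a g v) = v := by
        rw [map_inv]
        exact LinearEquiv.symm_apply_apply (a g) v
      rwa [h13, h14] at h12
    refine ⟨?_, ?_, ?_⟩
    · rw [map_mul, map_inv, h2, inv_mul_cancel]
    · rw [map_mul, map_inv, h3, inv_mul_cancel]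
    · rw [near_iff hL]
      exact ⟨fun v _ => hL.le j (h11 v), fun v _ => h11 v⟩
  have hfq : Finite (G ⧸ Kg a qX qY L hst j) := by
    refine Finite.of_injective (fun q : G ⧸ Kg a qX qY L hst j => f q.out) ?_
    intro q q' hq
    have h1 := key _ _ hq
    rw [← QuotientGroup.eq, QuotientGroup.out_eq', QuotientGroup.out_eq'] at h1
    exact h1
  exact Subgroup.finiteIndex_of_finite_quotient

end

end Pool.Agent.Lib.MP_89bcae_ag.Xg
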