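import Mathlib
import Pool.Agent.Lib.MP_89bcae_ag.Xg.Chain
import Pool.Agent.Lib.MP_89bcae_ag.Xs.Hrt

/-!
# The heart
-/

open scoped Classical

namespace Pool.Agent.Lib.MP_89bcae_ag.Xg

open Pool.Agent.Lib.MP_89bcae_ag.Xs (Cst)

variable {r : ℕ} {G X : Type} [Group G] [Fintype X]

private lemma hrt_mk_eq {f g : X → ZMod 2} (h : (QuotientAddGroup.mk f : (X → ZMod 2) ⧸ Cst X) = QuotientAddGroup.mk g) :
    ∃ c, ∀ x, g x = f x + c := by
  rw [QuotientAddGroup.eq] at h
  obtain ⟨c, hc⟩ := h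
  refine ⟨c, fun x => ?_⟩
  have h1 := hc x
  rw [Pi.add_apply, Pi.neg_apply] at h1
  rw [← h1, add_neg_cancel_left]

private lemma hrt_sum_const (hX' : Even (Fintype.card X)) (c : ZMod 2) : ∑ _x : X, c = 0 := by
  rw [Finset.sum_const, Finset.card_univ, nsmul_eq_mul]
  have h1 : ((Fintype.card X : ℕ) : ZMod 2) = 0 := (ZMod.natCast_eq_zero_iff _ _).2 hX'.two_dvd
  rw [h1, zero_mul]

/-- The map is additive up to signs. -/
private lemma hrt_sub {a : G →* Au r} {q : G →* Equiv.Perm X} {A B : AddSubgroup (Md r)}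
    {d : Md r → (X → ZMod 2) ⧸ Cst X} (h : IsHrt a q A B d) {v w : Md r} (hv : v ∈ A) (hw : w ∈ A) :
    d (v - w) = d v - d w := by
  have h1 := h.add (v - w) (A.sub_mem hv hw) w hw
  rw [sub_add_cancel] at h1
  rw [h1, add_sub_cancel_right]

/-- G10 (file `Xg/Hrt.lean`): the group `A / B` is the whole heart if it is not `0`. -/
theorem IsHrt.surj {a : G →* Au r} {q : G →* Equiv.Perm X} {A B : AddSubgroup (Md r)}
    {d : Md r → (X → ZMod 2) ⧸ Cst X} (h : IsHrt a q A B d) (hX : 6 ≤ Fintype.card X) (hX' : Even (Fintype.card X))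
    (hq : Function.Surjective q) (hst : ∀ g, ∀ v ∈ A, a g v ∈ A) (hne : ¬ A ≤ B) {f : X → ZMod 2}
    (hf : ∑ x, f x = 0) : ∃ v ∈ A, d v = QuotientAddGroup.mk f := by
  have h0 : d 0 = 0 := (h.ker 0 A.zero_mem).2 B.zero_mem
  let M : AddSubgroup (X → ZMod 2) :=
    { carrier := {f | ∑ x, f x = 0 ∧ ∃ v ∈ A, d v = QuotientAddGroup.mk f}
      zero_mem' := ⟨by simp, 0, A.zero_mem, h0⟩
      add_mem' := by
        rintro f g ⟨hf, v, hv, hv'⟩ ⟨hg, w, hw, hw'⟩
        refine ⟨?_, v + w, A.add_mem hv hw, ?_⟩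
        · simp only [Pi.add_apply, Finset.sum_add_distrib, hf, hg, add_zero]
        · rw [h.add v hv w hw, hv', hw']
          rfl
      neg_mem' := by
        rintro f ⟨hf, v, hv, hv'⟩
        have h1 : -f = f := by
          funext x
          exact CharTwo.neg_eq _
        rw [h1]
        exact ⟨hf, v, hv, hv'⟩ }
  obtain ⟨v, hv, hvB⟩ := SetLike.not_le_iff_exists.1 hne
  obtain ⟨f0, hf0, hf0'⟩ := h.sum v hv
  have hf0c : f0 ∉ Cst X := by
    intro hc
    apply hvB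
    rw [← h.ker v hv, hf0', QuotientAddGroup.eq_zero_iff]
    exact hc
  have h1 := Xs.heart_irreducible hX hX' M (fun f hf => hf.1) (fun g _ f hf => by
    obtain ⟨hf, w, hw, hw'⟩ := hf
    obtain ⟨s, rfl⟩ := hq g
    refine ⟨?_, a s w, hst s w hw, h.act s w hw f hw'⟩
    rw [← hf]
    exact Equiv.sum_comp (q s)⁻¹ f) (f := f0) ⟨hf0, v, hv, hf0'⟩ hf0c f hf
  exact h1.2

/-- G10: an element which acts as a cycle of `n - 1` points has no fixed vector on `A / B`. -/
theorem IsHrt.fixed {a : G →* Au r} {q : G →* Equiv.Perm X} {A B : AddSubgroup (Md r)}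
    {d : Md r → (X → ZMod 2) ⧸ Cst X} (h : IsHrt a q A B d) (hX' : Even (Fintype.card X))
    (hst : ∀ g, ∀ v ∈ A, a g v ∈ A) {g : G} {x0 : X} (h0 : q g x0 = x0)
    (hc : ∀ x y, x ≠ x0 → y ≠ x0 → ∃ k : ℕ, ((q g) ^ k) x = y) {v : Md r} (hv : v ∈ A) (hv' : a g v - v ∈ B) :
    v ∈ B := by
  obtain ⟨f, hf, hfv⟩ := h.sum v hv
  have h1 : d (a g v) = d v := by
    have h2 := hrt_sub h (hst g v hv) hv
    rw [(h.ker _ (A.sub_mem (hst g v hv) hv)).2 hv'] at h2
    exact (sub_eq_zero.1 h2.symm)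
  rw [h.act g v hv f hfv, hfv] at h1
  obtain ⟨c, hc'⟩ := hrt_mk_eq h1
  have h3 : (q g)⁻¹ x0 = x0 := by
    rw [Equiv.Perm.inv_eq_iff_eq]
    exact h0.symm
  have hc0 : c = 0 := by
    have h4 := hc' x0
    rw [h3] at h4
    exact left_eq_add.1 h4
  subst hc0
  have h5 : ∀ x, f ((q g) x) = f x := by
    intro x
    have h6 := hc' ((q g) x)
    have h7 : (q g)⁻¹ ((q g) x) = x := (q g).symm_apply_apply x
    rw [h7, add_zero] at h6
    exact h6
  have h6 : ∀ (k : ℕ) x, f (((q g) ^ k) x) = f x := by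
    intro k
    induction k with
    | zero => intro x; rfl
    | succ k ih =>
      intro x
      rw [pow_succ', Equiv.Perm.mul_apply, h5, ih]
  -- `f` is constant off `x0`
  have hcon : ∀ x y, x ≠ x0 → y ≠ x0 → f x = f y := by
    intro x y hx hy
    obtain ⟨k, rfl⟩ := hc x y hx hy
    exact (h6 k x).symm
  rw [← h.ker v hv, hfv, QuotientAddGroup.eq_zero_iff]
  by_cases hall : ∀ x, x = x0
  · exact ⟨f x0, fun x => by rw [hall x]⟩
  · push Not at hall
    obtain ⟨x1, hx1⟩ := hall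
    refine ⟨f x1, fun x => ?_⟩
    by_cases hx : x = x0
    · subst hx
      -- the sum
      have h7 : ∑ y, (f y + f x1) = 0 := by
        rw [Finset.sum_add_distrib, hf, hrt_sum_const hX', add_zero]
      rw [Finset.sum_eq_single x] at h7
      · rw [← sub_eq_zero, sub_eq_add_neg, CharTwo.neg_eq]
        exact h7
      · intro y _ hy
        rw [hcon y x1 hy hx1]
        exact CharTwo.add_self_eq_zero _
      · intro h8
        exact absurd (Finset.mem_univ _) h8
    · exact hcon x x1 hx hx1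

/-- G10: an element which acts trivially on the points acts trivially on `A / B`. -/
theorem IsHrt.triv {a : G →* Au r} {q : G →* Equiv.Perm X} {A B : AddSubgroup (Md r)}
    {d : Md r → (X → ZMod 2) ⧸ Cst X} (h : IsHrt a q A B d)
    (hst : ∀ g, ∀ v ∈ A, a g v ∈ A) {g : G} (hg : q g = 1) {v : Md r} (hv : v ∈ A) : a g v - v ∈ B := by
  obtain ⟨f, hf, hfv⟩ := h.sum v hv
  rw [← h.ker _ (A.sub_mem (hst g v hv) hv), hrt_sub h (hst g v hv) hv, h.act g v hv f hfv, hfv, sub_eq_zero]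
  congr 1
  funext x
  rw [hg]
  rfl

end Pool.Agent.Lib.MP_89bcae_ag.Xg
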