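import Mathlib
import Pool.Agent.Lib.MP_89bcae_ag.Xg.Defs

/-!
# The elements of odd order lift
-/

namespace Pool.Agent.Lib.MP_89bcae_ag.Xg

section

variable {G : Type} [Group G] {K : ℕ → Subgroup G}

private lemma odd_pow_mem (hK : IsFilt K) {j : ℕ} {g s : G} {m : ℕ} (h : g * s⁻¹ ∈ K j) (hs : s ^ m ∈ K j) :
    g ^ m ∈ K j := by
  have hn : (K j).Normal := ⟨fun k hk h => hK.conj j k hk h⟩
  have h1 : (QuotientGroup.mk g : G ⧸ K j) = QuotientGroup.mk s := by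
    have h2 := (QuotientGroup.eq_one_iff (N := K j) (g * s⁻¹)).2 h
    rw [QuotientGroup.mk_mul, QuotientGroup.mk_inv] at h2
    exact mul_inv_eq_one.1 h2
  have h3 := (QuotientGroup.eq_one_iff (N := K j) (s ^ m)).2 hs
  refine (QuotientGroup.eq_one_iff (N := K j) (g ^ m)).1 ?_
  rw [QuotientGroup.mk_pow, h1, ← QuotientGroup.mk_pow, h3]

/-- G1 (file `Xg/Odd.lean`): the elements of odd order lift. -/
theorem exists_odd (hK : IsFilt K) {s : G} {m : ℕ} (hm : Odd m) (hs : s ^ m ∈ K 1) :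
    ∃ g : G, g ^ m = 1 ∧ g * s⁻¹ ∈ K 1 := by
  obtain ⟨c, hc⟩ := hm
  -- the sequence
  obtain ⟨t, ht⟩ : ∃ t : ℕ → G, t = fun j => s ^ ((m + 1) ^ j) := ⟨_, rfl⟩
  have h0 : t 0 = s := by
    rw [ht]
    show s ^ ((m + 1) ^ 0) = s
    rw [pow_zero, pow_one]
  have hsucc : ∀ j, t (j + 1) = t j ^ m * t j := by
    intro j
    rw [ht]
    show s ^ ((m + 1) ^ (j + 1)) = (s ^ ((m + 1) ^ j)) ^ m * s ^ ((m + 1) ^ j)
    rw [pow_succ (m + 1), pow_mul, pow_succ]
  have hmem : ∀ j, t j ^ m ∈ K (j + 1) := by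
    intro j
    induction j with
    | zero => rw [h0]; exact hs
    | succ j ih =>
      have h1 : t (j + 1) ^ m = (t j ^ m * t j ^ m) ^ (c + 1) := by
        rw [hsucc, ← pow_succ, ← pow_add, ← pow_mul, ← pow_mul]
        congr 1
        rw [hc]
        ring
      rw [h1]
      exact (K (j + 1 + 1)).pow_mem (hK.sq (j + 1) (by omega) _ ih) _
  have hdiff : ∀ j, t (j + 1) * (t j)⁻¹ ∈ K (j + 1) := by
    intro j
    rw [hsucc, mul_inv_cancel_right]
    exact hmem j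
  obtain ⟨g, hg⟩ := hK.lim t fun j => hK.le j (hdiff j)
  refine ⟨g, hK.sep _ fun j => odd_pow_mem hK (hg j) (hK.le j (hmem j)), ?_⟩
  have h1 := (K 1).mul_mem (hg 1) (hdiff 0)
  rwa [h0, mul_assoc, inv_mul_cancel_left] at h1

end

end Pool.Agent.Lib.MP_89bcae_ag.Xg
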