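import Mathlib

/-!
# The theorem of Schur, the alternating group is perfect (row G5)
-/

open scoped Classical commutatorElement

namespace Pool.Agent.Lib.MP_89bcae_ag.Xg

section

variable {G : Type} [Group G]

/-- G5: the theorem of Schur. -/
theorem finite_commutator {Z : Subgroup G} (hZ : ∀ z ∈ Z, ∀ g : G, z * g = g * z) [Z.FiniteIndex] :
    Finite (commutator G) := by
  have hfin : Finite (commutatorSet G) := by
    have h1 : commutatorSet G ⊆ Set.range (fun p : (G ⧸ Z) × (G ⧸ Z) => ⁅p.1.out, p.2.out⁆) := by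
      rintro _ ⟨x, y, rfl⟩
      have key : ∀ g : G, ∃ z ∈ Z, (QuotientGroup.mk g : G ⧸ Z).out = g * z := by
        intro g
        obtain ⟨z, hz⟩ := QuotientGroup.mk_out_eq_mul Z g
        exact ⟨z, z.2, hz⟩
      obtain ⟨z, hz, e1⟩ := key x
      obtain ⟨z', hz', e2⟩ := key y
      refine ⟨(QuotientGroup.mk x, QuotientGroup.mk y), ?_⟩
      show ⁅(QuotientGroup.mk x : G ⧸ Z).out, (QuotientGroup.mk y : G ⧸ Z).out⁆ = ⁅x, y⁆
      rw [e1, e2, commutatorElement_def, commutatorElement_def, mul_inv_rev, mul_inv_rev]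
      have c1 : ∀ g, z * g = g * z := hZ z hz
      have c2 : ∀ g, z' * g = g * z' := hZ z' hz'
      calc x * z * (y * z') * (z⁻¹ * x⁻¹) * (z'⁻¹ * y⁻¹)
          = x * (z * (y * z' * (z⁻¹ * x⁻¹) * (z'⁻¹ * y⁻¹))) := by simp only [mul_assoc]
        _ = x * ((y * z' * (z⁻¹ * x⁻¹) * (z'⁻¹ * y⁻¹)) * z) := by rw [c1]
        _ = x * y * (z' * (z⁻¹ * x⁻¹ * z'⁻¹ * y⁻¹ * z)) := by simp only [mul_assoc]
        _ = x * y * ((z⁻¹ * x⁻¹ * z'⁻¹ * y⁻¹ * z) * z') := by rw [c2]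
        _ = x * y * z⁻¹ * x⁻¹ * z'⁻¹ * y⁻¹ * (z * z') := by simp only [mul_assoc]
        _ = x * y * z⁻¹ * x⁻¹ * z'⁻¹ * ((z * z') * y⁻¹) := by
            rw [mul_assoc (x * y * z⁻¹ * x⁻¹ * z'⁻¹), mul_assoc z z' y⁻¹, c2 y⁻¹, ← mul_assoc z,
              c1 y⁻¹, mul_assoc y⁻¹]
        _ = x * y * z⁻¹ * x⁻¹ * (z'⁻¹ * (z * z')) * y⁻¹ := by simp only [mul_assoc]
        _ = x * y * z⁻¹ * x⁻¹ * z * y⁻¹ := by rw [c1 z', inv_mul_cancel_left]
        _ = x * y * z⁻¹ * (x⁻¹ * z) * y⁻¹ := by simp only [mul_assoc]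
        _ = x * y * x⁻¹ * y⁻¹ := by rw [← c1 x⁻¹, mul_assoc (x * y), inv_mul_cancel_left]
    exact Set.Finite.subset (Set.finite_range _) h1
  infer_instance

/-- G5: the alternating group is perfect. -/
theorem exists_commutator {Y : Type} [Fintype Y] (hY : 5 ≤ Fintype.card Y) {q : G →* Equiv.Perm Y}
    (hq : ∀ g ∈ alternatingGroup Y, ∃ x, q x = g) : ∀ g ∈ alternatingGroup Y, ∃ x ∈ commutator G, q x = g := by
  intro g hg
  have h1 : alternatingGroup Y ≤ q.range := fun g hg => hq g hg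
  have h2 : ⁅alternatingGroup Y, alternatingGroup Y⁆ = alternatingGroup Y :=
    commutator_alternatingGroup_eq_self (by rw [Nat.card_eq_fintype_card]; exact hY)
  have h3 : Subgroup.map q (commutator G) = ⁅q.range, q.range⁆ := by
    rw [commutator_def, Subgroup.map_commutator, ← MonoidHom.range_eq_map]
  have h4 : g ∈ Subgroup.map q (commutator G) := by
    rw [h3]
    rw [← h2] at hg
    exact Subgroup.commutator_mono h1 h1 hg
  obtain ⟨x, hx, rfl⟩ := h4
  exact ⟨x, hx, rfl⟩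

end

end Pool.Agent.Lib.MP_89bcae_ag.Xg
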