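import Mathlib
import Pool.Agent.Lib.MP_89bcae_ag.Xg.Chain

/-!
# The fixed vectors of an automorphism of odd order
-/

open scoped Classical

namespace Pool.Agent.Lib.MP_89bcae_ag.Xg

section

variable {r : ℕ} {L : ℕ → AddSubgroup (Md r)}

/-- The sum of the images of `v` under the powers of `g`. -/
noncomputable def teeN (g : Au r) (m : ℕ) (v : Md r) : Md r := ∑ i ∈ Finset.range m, (g ^ i) v

lemma tee_pow_mem {g : Au r} {j : ℕ} (hst : ∀ v ∈ L j, g v ∈ L j) (i : ℕ) : ∀ v ∈ L j, (g ^ i) v ∈ L j := by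
  induction i with
  | zero => exact fun v hv => hv
  | succ i ih =>
    intro v hv
    rw [pow_succ]
    exact ih _ (hst v hv)

lemma tee_mem {g : Au r} {j : ℕ} (hst : ∀ v ∈ L j, g v ∈ L j) (m : ℕ) {v : Md r} (hv : v ∈ L j) :
    teeN g m v ∈ L j :=
  AddSubgroup.sum_mem _ fun i _ => tee_pow_mem hst i v hv

lemma tee_fix {g : Au r} {m : ℕ} (hg : g ^ m = 1) (v : Md r) : g (teeN g m v) = teeN g m v := by
  unfold teeN
  rw [map_sum]
  have h1 : ∀ i, g ((g ^ i) v) = (g ^ (i + 1)) v := fun i => by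
    rw [pow_succ']
    rfl
  rw [Finset.sum_congr rfl fun i _ => h1 i]
  have h2 := Finset.sum_range_succ (fun i => (g ^ i) v) m
  have h3 := Finset.sum_range_succ' (fun i => (g ^ i) v) m
  simp only [hg, pow_zero] at h2 h3
  exact add_right_cancel (h3.symm.trans h2)

lemma tee_comm {g h : Au r} (hcomm : h * g = g * h) (m : ℕ) (v : Md r) :
    h (teeN g m v) = teeN g m (h v) := by
  unfold teeN
  rw [map_sum]
  refine Finset.sum_congr rfl fun i _ => ?_
  have h1 : h * g ^ i = g ^ i * h := (Commute.pow_right (show Commute h g from hcomm) i).eq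
  exact congrArg (fun a : Au r => a v) h1

lemma tee_sub (g : Au r) (m : ℕ) (v w : Md r) : teeN g m (v - w) = teeN g m v - teeN g m w := by
  unfold teeN
  rw [← Finset.sum_sub_distrib]
  exact Finset.sum_congr rfl fun i _ => map_sub _ _ _

lemma tee_pow_sub_mem {g : Au r} {j : ℕ} (hst : ∀ v ∈ L j, g v ∈ L j)
    (h1 : ∀ v ∈ L j, g v - v ∈ L (j + 1)) (i : ℕ) : ∀ v ∈ L j, (g ^ i) v - v ∈ L (j + 1) := by
  induction i with
  | zero =>
    intro v _
    rw [pow_zero]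
    show v - v ∈ _
    rw [sub_self]
    exact (L _).zero_mem
  | succ i ih =>
    intro v hv
    rw [pow_succ]
    have h2 := (L (j + 1)).add_mem (ih _ (hst v hv)) (h1 v hv)
    rwa [sub_add_sub_cancel] at h2

lemma tee_sub_mem (hL : IsChain L) {g : Au r} {j : ℕ} (hst : ∀ v ∈ L j, g v ∈ L j) {m : ℕ} (hm : Odd m)
    (h1 : ∀ v ∈ L j, g v - v ∈ L (j + 1)) {v : Md r} (hv : v ∈ L j) : teeN g m v - v ∈ L (j + 1) := by
  obtain ⟨k, rfl⟩ := hm
  have h2 : ∑ i ∈ Finset.range (2 * k + 1), ((g ^ i) v - v) ∈ L (j + 1) :=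
    AddSubgroup.sum_mem _ fun i _ => tee_pow_sub_mem hst h1 i v hv
  have h3 : k • v + k • v ∈ L (j + 1) :=
    hL.le _ (hL.add_self_iff.2 ((L j).nsmul_mem hv k))
  have h4 := (L (j + 1)).add_mem h2 h3
  have h5 : ∑ i ∈ Finset.range (2 * k + 1), ((g ^ i) v - v) + (k • v + k • v) =
      teeN g (2 * k + 1) v - v := by
    unfold teeN
    rw [Finset.sum_sub_distrib, Finset.sum_const, Finset.card_range]
    have h6 : (2 * k + 1) • v = k • v + k • v + v := by
      rw [succ_nsmul, two_mul, add_nsmul]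
    rw [h6]
    abel
  rwa [h5] at h4

/-- G9: the fixed vectors of `g` represent `L 1 / L 2`. -/
theorem exists_fixed (hL : IsChain L) {g : Au r} (hst : ∀ i, ∀ v ∈ L i, g v ∈ L i) {m : ℕ} (hm : Odd m)
    (hg : g ^ m = 1) (h1 : ∀ v ∈ L 1, g v - v ∈ L 2) : ∀ v ∈ L 1, ∃ t ∈ L 1, g t = t ∧ v - t ∈ L 2 := by
  intro v hv
  refine ⟨teeN g m v, tee_mem (hst 1) m hv, tee_fix hg v, ?_⟩
  have h2 := (L 2).neg_mem (tee_sub_mem hL (hst 1) hm h1 hv)
  rwa [neg_sub] at h2

/-- The group `L (j + 1) / L (j + 2)` is trivial under `g`, `j` even. -/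
lemma tee_odd (hL : IsChain L) {g : Au r} (h1 : ∀ v ∈ L 1, g v - v ∈ L 2) (i : ℕ) :
    ∀ v ∈ L (2 * i + 1), g v - v ∈ L (2 * i + 1 + 1) := by
  intro v hv
  rw [show 2 * i + 1 = 1 + 2 * i by ring] at hv
  obtain ⟨w, hw, rfl⟩ := hL.exists_pow hv
  rw [map_smul, ← smul_sub, show 2 * i + 1 + 1 = 2 + 2 * i by ring, hL.pow_smul_iff]
  exact h1 w hw

/-- The vectors of `L (2 i)` fixed by `g` are in `L (2 i + 1)`. -/
lemma tee_even (hL : IsChain L) {g : Au r} (h0 : ∀ v ∈ L 0, g v - v ∈ L 1 → v ∈ L 1) (i : ℕ) {v : Md r}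
    (hv : v ∈ L (2 * i)) (hg : g v = v) : v ∈ L (2 * i + 1) := by
  rw [show 2 * i = 0 + 2 * i by ring] at hv
  obtain ⟨w, hw, rfl⟩ := hL.exists_pow hv
  rw [show 2 * i + 1 = 1 + 2 * i by ring, hL.pow_smul_iff]
  refine h0 w hw ?_
  rw [← hL.pow_smul_iff (k := i), smul_sub, ← map_smul, hg, sub_self]
  exact (L _).zero_mem

/-- G9: the automorphisms which commute with `g` have no leading term of odd level. -/
theorem near_succ (hL : IsChain L) {g : Au r} (hst : ∀ i, ∀ v ∈ L i, g v ∈ L i) {m : ℕ} (hm : Odd m)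
    (hg : g ^ m = 1) (h0 : ∀ v ∈ L 0, g v - v ∈ L 1 → v ∈ L 1) (h1 : ∀ v ∈ L 1, g v - v ∈ L 2) {h : Au r}
    (hcomm : h * g = g * h) {i : ℕ} (hh : IsNear L (2 * i + 1) h) : IsNear L (2 * i + 2) h := by
  have key : ∀ v, teeN g m (h v - v) = h (teeN g m v) - teeN g m v := fun v => by
    rw [tee_sub, tee_comm hcomm]
  refine (near_iff hL).2 ⟨fun v hv => ?_, fun v hv => ?_⟩
  · have h2 : h v - v ∈ L (2 * i + 1) := by simpa using hh 0 v hv
    have h3 := tee_sub_mem hL (hst _) hm (tee_odd hL h1 i) h2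
    have h4 : teeN g m v ∈ L 1 :=
      tee_even hL h0 0 (tee_mem (hst 0) m hv) (tee_fix hg v)
    have h5 := hh 1 _ h4
    rw [← key, show 1 + (2 * i + 1) = 2 * i + 1 + 1 by ring] at h5
    have h6 := (L (2 * i + 1 + 1)).sub_mem h5 h3
    rwa [sub_sub_cancel] at h6
  · have h2 : h v - v ∈ L (2 * (i + 1)) := by
      have := hh 1 v hv
      rwa [show 1 + (2 * i + 1) = 2 * (i + 1) by ring] at this
    have h3 : teeN g m v - v ∈ L 2 := tee_sub_mem hL (hst 1) hm h1 hv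
    have h4 := hh 2 _ h3
    have h5 : h (teeN g m v) - teeN g m v ∈ L (2 * (i + 1) + 1) := by
      rw [← key]
      exact tee_even hL h0 (i + 1) (tee_mem (hst _) m h2) (tee_fix hg _)
    rw [show 2 + (2 * i + 1) = 2 * (i + 1) + 1 by ring, map_sub] at h4
    have h6 := (L (2 * (i + 1) + 1)).sub_mem h5 h4
    rw [show 2 * i + 2 + 1 = 2 * (i + 1) + 1 by ring]
    have h7 : h (teeN g m v) - teeN g m v - (h (teeN g m v) - h v - (teeN g m v - v)) = h v - v := by
      abel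
    rwa [h7] at h6

end

end Pool.Agent.Lib.MP_89bcae_ag.Xg
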