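import Mathlib
import Pool.Agent.Lib.MP_89bcae_ag.Xg.Chain

/-!
# The commutator with an element which acts trivially on the points
-/

open scoped Classical

namespace Pool.Agent.Lib.MP_89bcae_ag.Xg

/-- An automorphism which is near to the identity on `L 0`. -/
private lemma triv_shift {r : ℕ} {L : ℕ → AddSubgroup (Md r)} (hL : IsChain L) {s : Au r}
    (hs0 : ∀ v ∈ L 0, s v - v ∈ L 1) (i : ℕ) : ∀ v ∈ L (2 * i), s v - v ∈ L (2 * i + 1) := by
  intro v hv
  rw [← zero_add (2 * i)] at hv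
  obtain ⟨w, hw, rfl⟩ := hL.exists_pow hv
  have h1 := (hL.pow_smul_iff (k := i)).2 (hs0 w hw)
  rw [smul_sub, ← map_smul, add_comm 1 (2 * i)] at h1
  exact h1

/-- G13: the commutator with an element which acts trivially on the points. -/
theorem comm_near {r : ℕ} {L : ℕ → AddSubgroup (Md r)} (hL : IsChain L) {s g : Au r}
    (hs : ∀ i, ∀ v ∈ L i, s v ∈ L i) (hs' : ∀ i, ∀ v ∈ L i, s⁻¹ v ∈ L i)
    (hg : ∀ i, ∀ v ∈ L i, g v ∈ L i) (hg' : ∀ i, ∀ v ∈ L i, g⁻¹ v ∈ L i)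
    {i : ℕ} (hn : IsNear L (2 * i) g) (hs0 : ∀ v ∈ L 0, s v - v ∈ L 1) (hsc : IsScalar L i g) :
    IsNear L (2 * i + 1) (s * g * s⁻¹ * g⁻¹) := by
  have key : ∀ v : Md r, (s * g * s⁻¹ * g⁻¹ : Au r) v - v =
      s (g (s⁻¹ (g⁻¹ v))) - g (s (s⁻¹ (g⁻¹ v))) := by
    intro v
    have h1 : s (s⁻¹ (g⁻¹ v)) = g⁻¹ v := LinearEquiv.apply_symm_apply s _
    have h2 : g (g⁻¹ v) = v := LinearEquiv.apply_symm_apply g v
    rw [h1, h2]
    rfl
  rw [near_iff hL]
  constructor
  · intro v hv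
    rw [key v]
    have hw := hs' 0 _ (hg' 0 v hv)
    generalize s⁻¹ (g⁻¹ v) = w at hw
    have hu : g w - w ∈ L (2 * i) := by simpa using hn 0 w hw
    have h1 := triv_shift hL hs0 i _ hu
    have h2 := hn 1 _ (hs0 w hw)
    rw [add_comm 1 (2 * i)] at h2
    have h3 := (L (2 * i + 1)).sub_mem h1 h2
    rw [map_sub, map_sub] at h3
    have h4 : s (g w) - g (s w) = s (g w) - s w - (g w - w) - (g (s w) - g w - (s w - w)) := by
      abel
    rw [h4]
    exact h3
  · intro v hv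
    rw [key v]
    have hw := hs' 1 _ (hg' 1 v hv)
    generalize s⁻¹ (g⁻¹ v) = w at hw
    have hsw := hs 1 w hw
    rcases hsc with h | h
    · have h1 := hs _ _ (h w hw)
      have h2 := (L (2 * i + 2)).sub_mem h1 (h _ hsw)
      rw [map_sub] at h2
      have h4 : s (g w) - g (s w) = s (g w) - s w - (g (s w) - s w) := by abel
      rw [show 2 * i + 1 + 1 = 2 * i + 2 from rfl, h4]
      exact h2
    · have h1 := hs _ _ (h w hw)
      have h2 := (L (2 * i + 2)).sub_mem h1 (h _ hsw)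
      rw [map_sub, map_sub, map_smul] at h2
      have h4 : s (g w) - g (s w) = s (g w) - s w - (2 : ℤ_[2]) ^ i • s w -
          (g (s w) - s w - (2 : ℤ_[2]) ^ i • s w) := by abel
      rw [show 2 * i + 1 + 1 = 2 * i + 2 from rfl, h4]
      exact h2

end Pool.Agent.Lib.MP_89bcae_ag.Xg
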