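import Mathlib
import Pool.Agent.Lib.MP_89bcae_ag.Xg.Chain
import Pool.Agent.Lib.MP_89bcae_ag.Xg.Odd
import Pool.Agent.Lib.MP_89bcae_ag.Xg.Conj
import Pool.Agent.Lib.MP_89bcae_ag.Xg.Cz
import Pool.Agent.Lib.MP_89bcae_ag.Xg.Cop
import Pool.Agent.Lib.MP_89bcae_ag.Xg.Sch
import Pool.Agent.Lib.MP_89bcae_ag.Xg.Fin
import Pool.Agent.Lib.MP_89bcae_ag.Xg.Tee
import Pool.Agent.Lib.MP_89bcae_ag.Xg.Hrt
import Pool.Agent.Lib.MP_89bcae_ag.Xg.Triv
import Pool.Agent.Lib.MP_89bcae_ag.Xs.Nof

/-!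
# The leading terms are not all scalars
-/

open scoped Classical

namespace Pool.Agent.Lib.MP_89bcae_ag.Xg

open Pool.Agent.Lib.MP_89bcae_ag.Xs (Cst no_lift_four)

/-- A cycle of `n - 1` points. -/
private lemma exists_cycle {X : Type} [Fintype X] (hX : 2 ≤ Fintype.card X) :
    ∃ (c : Equiv.Perm X) (x0 : X), c x0 = x0 ∧ (∀ x y, x ≠ x0 → y ≠ x0 → ∃ k : ℕ, (c ^ k) x = y) ∧
      c ^ (Fintype.card X - 1) = 1 := by
  set n : ℕ := Fintype.card X - 1 with hn
  have hn0 : NeZero n := ⟨by omega⟩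
  have e : X ≃ Option (ZMod n) := Fintype.equivOfCardEq (by
    rw [Fintype.card_option, ZMod.card]
    omega)
  set c : Equiv.Perm X := (e.trans (Equiv.optionCongr (Equiv.addRight (1 : ZMod n)))).trans e.symm with hc
  have h1 : ∀ x, c x = e.symm (Option.map (fun z => z + 1) (e x)) := fun x => rfl
  have h2 : ∀ (k : ℕ) (x : X), (c ^ k) x = e.symm (Option.map (fun z => z + k) (e x)) := by
    intro k
    induction k with
    | zero =>
      intro x
      rw [pow_zero, Nat.cast_zero]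
      simp
    | succ k ih =>
      intro x
      rw [pow_succ', Equiv.Perm.mul_apply, ih, h1, Equiv.apply_symm_apply, Option.map_map]
      congr 1
      congr 1
      funext z
      show z + k + 1 = _
      rw [Nat.cast_succ, add_assoc]
  refine ⟨c, e.symm none, ?_, ?_, ?_⟩
  · rw [h1, Equiv.apply_symm_apply]
    rfl
  · intro x y hx hy
    have hx' : e x ≠ none := fun h => hx (by rw [← h, Equiv.symm_apply_apply])
    have hy' : e y ≠ none := fun h => hy (by rw [← h, Equiv.symm_apply_apply])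
    obtain ⟨z, hz⟩ := Option.ne_none_iff_exists'.1 hx'
    obtain ⟨w, hw⟩ := Option.ne_none_iff_exists'.1 hy'
    refine ⟨(w - z).val, ?_⟩
    rw [h2, hz, Option.map_some, ZMod.natCast_zmod_val, add_sub_cancel, ← hw, Equiv.symm_apply_apply]
  · ext x
    rw [h2, ZMod.natCast_self]
    simp

section

variable {r : ℕ} {G X Y : Type} [Group G] [Fintype X] [Fintype Y]

/-- The leading terms on `L 1 / L 2` are not all scalars. -/
theorem cent {a : G →* Au r} {qX : G →* Equiv.Perm X} {qY : G →* Equiv.Perm Y} {L : ℕ → AddSubgroup (Md r)}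
    (hL : IsChain L) {hst : ∀ g i, ∀ v ∈ L i, a g v ∈ L i} (hK : IsFilt (Kg a qX qY L hst))
    (hq : ∀ g h, ∃ x, qX x = g ∧ qY x = h) {d0 : Md r → (X → ZMod 2) ⧸ Cst X} {d1 : Md r → (Y → ZMod 2) ⧸ Cst Y}
    (hd0 : IsHrt a qX (L 0) (L 1) d0) (hd1 : IsHrt a qY (L 1) (L 2) d1)
    (hX : 6 ≤ Fintype.card X) (hX' : Even (Fintype.card X)) (hY : 4 ∣ Fintype.card Y) (hY' : 8 ≤ Fintype.card Y)
    (hne : ¬ L 1 ≤ L 2) (i0 : ℕ) :
    ∃ i, i0 ≤ i ∧ ∃ g ∈ Kg a qX qY L hst (2 * i), ¬ IsScalar L i (a g) := by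
  by_contra hcon
  push Not at hcon
  have hst' : ∀ g : G, ∀ i, ∀ v ∈ L i, (a g)⁻¹ v ∈ L i := fun g i v hv => by
    rw [← map_inv]
    exact hst _ i v hv
  have hone : ∀ g : G, qX g = 1 → qY g = 1 → g ∈ Kg a qX qY L hst 1 := by
    intro g h1 h2
    refine ⟨h1, h2, (near_iff hL).2 ⟨fun v hv => ?_, fun v hv => ?_⟩⟩
    · exact hd0.triv (fun g v hv => hst g 0 v hv) h1 hv
    · exact hd1.triv (fun g v hv => hst g 1 v hv) h2 hv
  -- the element of odd order
  obtain ⟨c, x0, hc0, hcc, hcm⟩ := exists_cycle (X := X) (by omega)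
  set m : ℕ := Fintype.card X - 1 with hm
  have hmodd : Odd m := by
    obtain ⟨j, hj⟩ := hX'
    exact ⟨j - 1, by omega⟩
  obtain ⟨x, hx1, hx2⟩ := hq c 1
  obtain ⟨g0, hg0, hg0x⟩ := exists_odd hK hmodd (s := x) (hone _ (by rw [map_pow, hx1, hcm])
    (by rw [map_pow, hx2, one_pow]))
  have hg0X : qX g0 = c := by
    have h1 := hg0x.1
    rw [map_mul, map_inv, hx1, mul_inv_eq_one] at h1
    exact h1
  have hg0Y : qY g0 = 1 := by
    have h1 := hg0x.2.1
    rw [map_mul, map_inv, hx2, inv_one, mul_one] at h1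
    exact h1
  have hag0 : (a g0) ^ m = 1 := by rw [← map_pow, hg0, map_one]
  have hfix : ∀ v ∈ L 0, a g0 v - v ∈ L 1 → v ∈ L 1 := fun v hv h =>
    hd0.fixed hX' (fun g v hv => hst g 0 v hv) (g := g0) (x0 := x0) (by rw [hg0X, hc0]) (by rw [hg0X]; exact hcc) hv h
  have htriv : ∀ v ∈ L 1, a g0 v - v ∈ L 2 := fun v hv => hd1.triv (fun g v hv => hst g 1 v hv) hg0Y hv
  -- the centralizer
  set S : Subgroup G := Subgroup.centralizer {g0} with hS
  have hKS : IsFilt fun j => (Kg a qX qY L hst j).subgroupOf S := filt_centralizer hK g0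
  have hSc : ∀ s : S, (s : G) * g0 = g0 * s := fun s => Subgroup.mem_centralizer_singleton_iff.1 s.2
  have hodd : ∀ s : S, ∀ i, IsNear L (2 * i + 1) (a s) → IsNear L (2 * i + 2) (a s) := by
    intro s i h
    refine near_succ hL (hst g0) hmodd hag0 hfix htriv ?_ h
    rw [← map_mul, ← map_mul, hSc]
  have hlift : ∀ τ : Equiv.Perm Y, ∃ s : S, qX s = 1 ∧ qY s = τ := by
    intro τ
    obtain ⟨y, hy1, hy2⟩ := hq 1 τ
    obtain ⟨κ, hκ, hκ'⟩ := exists_conj hK hmodd hg0 (g' := y * g0 * y⁻¹) (by rw [conj_pow, hg0, mul_one, mul_inv_cancel])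
      (hone _ (by simp only [map_mul, map_inv, hy1, one_mul, inv_one, mul_one, mul_inv_cancel])
        (by simp only [map_mul, map_inv, hg0Y, mul_one, inv_one, mul_inv_cancel]))
    refine ⟨⟨κ⁻¹ * y, ?_⟩, ?_, ?_⟩
    · rw [Subgroup.mem_centralizer_singleton_iff]
      have h1 : y * g0 = κ * g0 * κ⁻¹ * y := by rw [← hκ']; group
      calc κ⁻¹ * y * g0 = κ⁻¹ * (κ * g0 * κ⁻¹ * y) := by rw [← h1]; group
        _ = g0 * (κ⁻¹ * y) := by group
    · show qX (κ⁻¹ * y) = 1
      rw [map_mul, map_inv, hκ.1, hy1, inv_one, one_mul]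
    · show qY (κ⁻¹ * y) = τ
      rw [map_mul, map_inv, hκ.2.1, hy2, inv_one, one_mul]
  have hthree : ∀ τ : Equiv.Perm Y, τ ^ 3 = 1 → ∃ s : S, s ^ 3 = 1 ∧ qX s = 1 ∧ qY s = τ := by
    intro τ hτ
    obtain ⟨s, hs1, hs2⟩ := hlift τ
    obtain ⟨t, ht, ht'⟩ := exists_odd hKS (s := s) (m := 3) (by decide) (by
      rw [Subgroup.mem_subgroupOf]
      refine hone _ ?_ ?_
      · rw [Subgroup.coe_pow, map_pow, hs1, one_pow]
      · rw [Subgroup.coe_pow, map_pow, hs2, hτ])
    rw [Subgroup.mem_subgroupOf] at ht'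
    refine ⟨t, ht, ?_, ?_⟩
    · have h1 := ht'.1
      rw [Subgroup.coe_mul, map_mul, Subgroup.coe_inv, map_inv, hs1, inv_one, mul_one] at h1
      exact h1
    · have h1 := ht'.2.1
      rw [Subgroup.coe_mul, map_mul, Subgroup.coe_inv, map_inv, hs2, mul_inv_eq_one] at h1
      exact h1
  -- the filtration of the centralizer
  set D : ℕ → Subgroup S := fun j => (Kg a qX qY L hst (2 * (i0 + 1 + j))).subgroupOf S with hD
  have hDmem : ∀ j (g : S), g ∈ D j ↔ (g : G) ∈ Kg a qX qY L hst (2 * (i0 + 1 + j)) := fun j g => Iff.rfl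
  have hDsucc : ∀ j (g : S), (g : G) ∈ Kg a qX qY L hst (2 * (i0 + 1 + j) + 1) → g ∈ D (j + 1) := by
    intro j g hg
    rw [hDmem]
    refine ⟨hg.1, hg.2.1, ?_⟩
    have h1 := hodd g _ hg.2.2
    rwa [show 2 * (i0 + 1 + (j + 1)) = 2 * (i0 + 1 + j) + 2 by ring]
  have hcomm : ∀ s : S, s ^ 3 = 1 → qX s = 1 → ∀ g ∈ D 0, s * g = g * s := by
    intro s hs hsX g hg
    refine comm_of_odd (D := D) (fun j g hg h => ?_) (fun j => ?_) (fun j g hg => ?_) (fun g hg => ?_) (m := 3)
      (by decide) hs (fun j g hg => ?_) hg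
    · exact hK.conj _ _ hg h
    · intro g hg
      rw [hDmem] at hg ⊢
      exact hK.le _ (hK.le _ (by rwa [show 2 * (i0 + 1 + (j + 1)) = 2 * (i0 + 1 + j) + 1 + 1 by ring] at hg))
    · exact hDsucc j _ (hK.sq _ (by omega) _ hg)
    · refine hKS.sep g fun j => ?_
      have h1 := hg j
      rw [hDmem] at h1
      rw [Subgroup.mem_subgroupOf]
      exact ⟨h1.1, h1.2.1, h1.2.2.mono hL (by omega)⟩
    · refine hDsucc j _ ⟨?_, ?_, ?_⟩
      · have h1 := hg.1
        simp only [Subgroup.coe_mul, Subgroup.coe_inv, map_mul, map_inv, hsX, inv_one, one_mul, mul_one]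
        exact mul_inv_cancel _
      · have h1 : qY g = 1 := hg.2.1
        simp only [Subgroup.coe_mul, Subgroup.coe_inv, map_mul, map_inv, h1, inv_one, mul_one, mul_inv_cancel]
      · have h1 : a ((s * g * s⁻¹ * g⁻¹ : S) : G) = a s * a g * (a s)⁻¹ * (a g)⁻¹ := by
          simp only [Subgroup.coe_mul, Subgroup.coe_inv, map_mul, map_inv]
        rw [h1]
        exact comm_near hL (hst s) (hst' s) (hst g) (hst' g) hg.2.2
          (fun v hv => hd0.triv (fun g v hv => hst g 0 v hv) hsX hv) (hcon _ (by omega) _ hg)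
  -- the group generated by the elements of order 3
  set S1 : Subgroup S := Subgroup.closure {s | s ^ 3 = 1 ∧ qX s = 1} with hS1
  have hcen : ∀ g ∈ S1, ∀ z ∈ D 0, z * g = g * z := by
    intro g hg z hz
    induction hg using Subgroup.closure_induction with
    | mem g hg => exact (hcomm g hg.1 hg.2 z hz).symm
    | one => rw [mul_one, one_mul]
    | mul g h _ _ ih ih' => rw [← mul_assoc, ih, mul_assoc, ih', mul_assoc]
    | inv g _ ih =>
      have h1 : g * (z * g⁻¹) = g * (g⁻¹ * z) := by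
        rw [← mul_assoc, ← ih, mul_assoc, mul_inv_cancel, mul_one, ← mul_assoc, mul_inv_cancel, one_mul]
      exact mul_left_cancel h1
  have hfinite : Finite (commutator S1) := by
    have hfi : (Kg a qX qY L hst (2 * (i0 + 1 + 0))).FiniteIndex := finiteIndex_Kg a qX qY hL hst _
    have hfi' : (D 0).FiniteIndex := by
      rw [hD]
      infer_instance
    have hfi'' : ((D 0).subgroupOf S1).FiniteIndex := inferInstance
    exact finite_commutator (Z := (D 0).subgroupOf S1) fun z hz g => Subtype.ext (hcen g g.2 z hz)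
  set q' : S1 →* Equiv.Perm Y := (qY.comp S.subtype).comp S1.subtype with hq'
  have halt : ∀ g ∈ alternatingGroup Y, ∃ x ∈ commutator S1, q' x = g := by
    refine exists_commutator (by omega) fun g hg => ?_
    rw [← Equiv.Perm.closure_three_cycles_eq_alternating] at hg
    induction hg using Subgroup.closure_induction with
    | mem g hg =>
      have h3 : g ^ 3 = 1 := by
        have h4 : g.IsThreeCycle := hg
        rw [← h4.orderOf]
        exact pow_orderOf_eq_one _
      obtain ⟨s, h1, h2, h3⟩ := hthree g h3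
      exact ⟨⟨s, Subgroup.subset_closure ⟨h1, h2⟩⟩, h3⟩
    | one => exact ⟨1, map_one _⟩
    | mul g h _ _ ih ih' =>
      obtain ⟨x, rfl⟩ := ih
      obtain ⟨y, rfl⟩ := ih'
      exact ⟨x * y, map_mul _ _ _⟩
    | inv g _ ih =>
      obtain ⟨x, rfl⟩ := ih
      exact ⟨x⁻¹, map_inv _ _⟩
  -- the lattice of the fixed vectors
  let T : Submodule ℤ_[2] (Md r) :=
    { carrier := {v | v ∈ L 1 ∧ a g0 v = v}
      add_mem' := fun {v w} hv hw => ⟨(L 1).add_mem hv.1 hw.1, by rw [map_add, hv.2, hw.2]⟩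
      zero_mem' := ⟨(L 1).zero_mem, map_zero _⟩
      smul_mem' := fun c v hv => ⟨hL.smul_mem c hv.1, by rw [map_smul, hv.2]⟩ }
  have hTst : ∀ s : S, ∀ v ∈ T, a s v ∈ T := by
    intro s v hv
    refine ⟨hst _ 1 v hv.1, ?_⟩
    rw [← LinearEquiv.mul_apply, ← map_mul, ← hSc, map_mul, LinearEquiv.mul_apply, hv.2]
  let φ : S →* (T ≃ₗ[ℤ_[2]] T) :=
    { toFun := fun s =>
        { toFun := fun v => ⟨a s v, hTst s v v.2⟩
          map_add' := fun v w => Subtype.ext (map_add (a s) (v : Md r) w)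
          map_smul' := fun c v => Subtype.ext (map_smul (a s) c (v : Md r))
          invFun := fun v => ⟨a (s⁻¹ : S) v, hTst s⁻¹ v v.2⟩
          left_inv := fun v => Subtype.ext (by
            show a ((s⁻¹ : S) : G) (a s v) = v
            rw [← LinearEquiv.mul_apply, ← map_mul, ← Subgroup.coe_mul, inv_mul_cancel, Subgroup.coe_one, map_one]
            rfl)
          right_inv := fun v => Subtype.ext (by
            show a (s : G) (a ((s⁻¹ : S) : G) v) = v
            rw [← LinearEquiv.mul_apply, ← map_mul, ← Subgroup.coe_mul, mul_inv_cancel, Subgroup.coe_one, map_one]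
            rfl) }
      map_one' := LinearEquiv.ext fun v => Subtype.ext (by
        show a ((1 : S) : G) v = v
        rw [Subgroup.coe_one, map_one]
        rfl)
      map_mul' := fun s t => LinearEquiv.ext fun v => Subtype.ext (by
        show a ((s * t : S) : G) v = a s (a t v)
        rw [Subgroup.coe_mul, map_mul]
        rfl) }
  have hφ : ∀ s (v : T), ((φ s v : T) : Md r) = a s v := fun s v => rfl
  let e : T ≃ₗ[ℤ_[2]] (Fin (Module.finrank ℤ_[2] T) → ℤ_[2]) := (Module.finBasis ℤ_[2] T).equivFun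
  let ψ : S1 →* ((Fin (Module.finrank ℤ_[2] T) → ℤ_[2]) ≃ₗ[ℤ_[2]] (Fin (Module.finrank ℤ_[2] T) → ℤ_[2])) :=
    { toFun := fun s => (e.symm.trans (φ s)).trans e
      map_one' := LinearEquiv.ext fun v => by
        show e (φ ((1 : S1) : S) (e.symm v)) = v
        rw [Subgroup.coe_one, map_one]
        exact e.apply_symm_apply v
      map_mul' := fun s t => LinearEquiv.ext fun v => by
        show e (φ ((s * t : S1) : S) (e.symm v)) = e (φ s (e.symm (e (φ t (e.symm v)))))
        rw [Subgroup.coe_mul, map_mul, e.symm_apply_apply]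
        rfl }
  have hψ : ∀ (s : S1) v, ((e.symm (ψ s v) : T) : Md r) = a ((s : S) : G) (e.symm v : T) := by
    intro s v
    show ((e.symm (e (φ s (e.symm v))) : T) : Md r) = _
    rw [e.symm_apply_apply, hφ]
  let p : (Fin (Module.finrank ℤ_[2] T) → ℤ_[2]) →+ (Y → ZMod 2) ⧸ Cst Y :=
    { toFun := fun v => d1 (e.symm v : T)
      map_zero' := by
        rw [map_zero]
        exact (hd1.ker _ (L 1).zero_mem).2 (L 2).zero_mem
      map_add' := fun v w => by
        rw [map_add]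
        exact hd1.add _ (e.symm v).2.1 _ (e.symm w).2.1 }
  have hp : ∀ v, p v = d1 (e.symm v : T) := fun v => rfl
  have hΓ : Finite ((commutator S1).map ψ) := by
    have h1 : Set.Finite (ψ '' (commutator S1 : Set S1)) := Set.Finite.image _ (Set.toFinite _)
    exact h1.to_subtype
  refine no_lift_four hY hY' ((commutator S1).map ψ) p (fun v => ?_) (fun y => ?_) (fun g hg => ?_)
  · rw [hp, hd1.ker _ (e.symm v).2.1, hL.two]
    constructor
    · rintro ⟨w, hw, hvw⟩
      have hw1 : a g0 w = w := by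
        have h1 := (e.symm v).2.2
        rw [hvw, map_add] at h1
        exact add_self_inj h1
      have hw2 : w ∈ L 1 := hfix w hw (by rw [hw1, sub_self]; exact (L 1).zero_mem)
      refine ⟨e ⟨w, hw2, hw1⟩, ?_⟩
      rw [← map_add, ← e.symm_apply_eq]
      exact Subtype.ext hvw
    · rintro ⟨w, rfl⟩
      refine ⟨(e.symm w : T), hL.le 0 (e.symm w).2.1, ?_⟩
      rw [map_add]
      rfl
  · constructor
    · rintro ⟨v, rfl⟩
      obtain ⟨f, hf, hf'⟩ := hd1.sum _ (e.symm v).2.1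
      exact ⟨f, hf, hf'.symm⟩
    · rintro ⟨f, hf, rfl⟩
      have hqY : Function.Surjective qY := fun g => by
        obtain ⟨x, _, hx⟩ := hq 1 g
        exact ⟨x, hx⟩
      obtain ⟨v, hv, hvf⟩ := hd1.surj (by omega) (even_iff_two_dvd.2 ((by norm_num : 2 ∣ 4).trans hY)) hqY
        (fun g v hv => hst g 1 v hv) hne hf
      obtain ⟨t, ht, ht', hvt⟩ := exists_fixed hL (hst g0) hmodd hag0 htriv v hv
      refine ⟨e ⟨t, ht, ht'⟩, ?_⟩
      rw [hp, e.symm_apply_apply, ← hvf]
      have h1 : d1 v = d1 t + d1 (v - t) := by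
        rw [← hd1.add _ ht _ ((L 1).sub_mem hv ht), add_sub_cancel]
      rw [h1, (hd1.ker _ ((L 1).sub_mem hv ht)).2 hvt, add_zero]
  · obtain ⟨x, hx, hxg⟩ := halt g hg
    refine ⟨ψ x, Subgroup.mem_map_of_mem _ hx, fun v f hvf => ?_⟩
    rw [hp] at hvf
    rw [hp, hψ]
    have h1 := hd1.act ((x : S) : G) _ (e.symm v).2.1 f hvf
    have h2 : qY ((x : S) : G) = g := hxg
    rw [h2] at h1
    exact h1

end

end Pool.Agent.Lib.MP_89bcae_ag.Xg
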