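import Mathlib
import Pool.Agent.Lib.MP_89bcae_ag.Xg.Chain

/-!
# The completeness of the lattice (row G6)
-/

open scoped Classical

namespace Pool.Agent.Lib.MP_89bcae_ag.Xg

variable {r : ℕ}

private lemma G6_one (f : ℕ → ℤ_[2]) (hf : ∀ j, ∃ w : ℤ_[2], f (j + 1) - f j = (2 : ℤ_[2]) ^ j * w) :
    ∃ v : ℤ_[2], ∀ j, ∃ w : ℤ_[2], v - f j = (2 : ℤ_[2]) ^ j * w := by
  have hspan : ∀ (j : ℕ) (x : ℤ_[2]), x ∈ (IsLocalRing.maximalIdeal ℤ_[2]) ^ j • (⊤ : Submodule ℤ_[2] ℤ_[2]) ↔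
      ∃ w, x = (2 : ℤ_[2]) ^ j * w := by
    intro j x
    rw [PadicInt.maximalIdeal_eq_span_p, Ideal.span_singleton_pow, smul_eq_mul, Ideal.mul_top,
      Ideal.mem_span_singleton]
    norm_num
    rfl
  have hd : ∀ j k, j ≤ k → ∃ w, f k - f j = (2 : ℤ_[2]) ^ j * w := by
    intro j k hjk
    induction k, hjk using Nat.le_induction with
    | base => exact ⟨0, by ring⟩
    | succ k hk ih =>
      obtain ⟨w, hw⟩ := ih
      obtain ⟨u, hu⟩ := hf k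
      refine ⟨w + 2 ^ (k - j) * u, ?_⟩
      have h1 : (2 : ℤ_[2]) ^ k = 2 ^ j * 2 ^ (k - j) := by rw [← pow_add]; congr 1; omega
      have h2 : f (k + 1) - f j = (f (k + 1) - f k) + (f k - f j) := by ring
      rw [h2, hu, hw, h1]
      ring
  obtain ⟨v, hv⟩ := IsPrecomplete.prec (I := IsLocalRing.maximalIdeal ℤ_[2])
    (M := ℤ_[2]) inferInstance (f := f) (by
      intro m n hmn
      rw [SModEq.sub_mem, hspan]
      obtain ⟨w, hw⟩ := hd m n hmn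
      exact ⟨-w, by rw [mul_neg, ← hw]; ring⟩)
  refine ⟨v, fun j => ?_⟩
  have h1 := hv j
  rw [SModEq.sub_mem, hspan] at h1
  obtain ⟨w, hw⟩ := h1
  exact ⟨-w, by rw [mul_neg, ← hw]; ring⟩

/-- G6: the completeness of the lattice. -/
theorem exists_lim (f : ℕ → Md r) (hf : ∀ j, ∃ w : Md r, f (j + 1) - f j = (2 : ℤ_[2]) ^ j • w) :
    ∃ v, ∀ j, ∃ w : Md r, v - f j = (2 : ℤ_[2]) ^ j • w := by
  have h1 : ∀ i, ∃ v : ℤ_[2], ∀ j, ∃ w : ℤ_[2], v - f j i = (2 : ℤ_[2]) ^ j * w := by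
    intro i
    refine G6_one (fun j => f j i) fun j => ?_
    obtain ⟨w, hw⟩ := hf j
    exact ⟨w i, congrFun hw i⟩
  choose v hv using h1
  refine ⟨v, fun j => ?_⟩
  choose w hw using fun i => hv i j
  exact ⟨w, funext hw⟩

/-- G6: the lattice is separated. -/
theorem eq_zero_of_chain {L : ℕ → AddSubgroup (Md r)} (hL : IsChain L) {v : Md r} (h : ∀ j, v ∈ L j) : v = 0 := by
  have h1 : ∀ j, ∃ w : Md r, v = (2 : ℤ_[2]) ^ j • w := by
    intro j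
    obtain ⟨w, _, hw⟩ := hL.exists_pow (i := 0) (k := j) (h _)
    exact ⟨w, hw⟩
  funext i
  show v i = 0
  by_contra hne
  have h2 : ∀ j : ℕ, (2 : ℤ_[2]) ^ j ∣ v i := by
    intro j
    obtain ⟨w, hw⟩ := h1 j
    exact ⟨w i, congrFun hw i⟩
  have h3 : (j : ℕ) → j ≤ (v i).valuation := by
    intro j
    have h4 : ((2 : ℕ) : ℤ_[2]) ^ j ∣ v i := by exact_mod_cast h2 j
    have h5 := (PadicInt.norm_le_pow_iff_mem_span_pow (v i) j).2 (Ideal.mem_span_singleton.2 h4)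
    exact (PadicInt.norm_le_pow_iff_le_valuation (v i) hne j).1 h5
  have := h3 ((v i).valuation + 1)
  omega

end Pool.Agent.Lib.MP_89bcae_ag.Xg
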