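import Mathlib
import Pool.Agent.Lib.MP_89bcae_ag.Xg.Chain
import Pool.Agent.Lib.MP_89bcae_ag.Xg.Lim

/-!
# The closed group is a filtered group
-/

open scoped Classical

namespace Pool.Agent.Lib.MP_89bcae_ag.Xg

section

variable {r : ℕ} {L : ℕ → AddSubgroup (Md r)}

/-- The vectors which are divisible by all powers of `2`. -/
private theorem clo_zero (hL : IsChain L) {v : Md r}
    (h : ∀ m, ∃ w : Md r, v = (2 : ℤ_[2]) ^ m • w) : v = 0 := by
  refine eq_zero_of_chain hL fun j => ?_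
  obtain ⟨k, hk⟩ := hL.exists_all j
  obtain ⟨w, hw⟩ := h k
  rw [hw]
  exact hk w

/-- Telescoping. -/
private theorem clo_tel (hL : IsChain L) {b : ℕ → Au r}
    (hb : ∀ j i, ∀ v ∈ L i, b (j + 1) v - b j v ∈ L (i + j)) {i j j' : ℕ} (h : j ≤ j') {v : Md r}
    (hv : v ∈ L i) : b j' v - b j v ∈ L (i + j) := by
  induction j', h using Nat.le_induction with
  | base =>
    rw [sub_self]
    exact (L _).zero_mem
  | succ j' hj ih =>
    have h1 := hL.anti (show i + j ≤ i + j' by omega) (hb j' i v hv)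
    have h2 := (L (i + j)).add_mem h1 ih
    rwa [sub_add_sub_cancel] at h2

/-- The limit of a sequence of automorphisms. -/
private theorem clo_lim (hL : IsChain L) {b : ℕ → Au r}
    (hb : ∀ j i, ∀ v ∈ L i, b (j + 1) v - b j v ∈ L (i + j)) :
    ∃ B : Md r →ₗ[ℤ_[2]] Md r, ∀ j i, ∀ v ∈ L i, B v - b j v ∈ L (i + j) := by
  obtain ⟨k, hk⟩ := hL.big
  have key : ∀ v : Md r, ∃ u : Md r, ∀ m, ∃ w : Md r, u - b (2 * (m + k)) v = (2 : ℤ_[2]) ^ m • w := by
    intro v
    refine exists_lim (fun m => b (2 * (m + k)) v) fun m => ?_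
    have h1 := clo_tel hL hb (show 2 * (m + k) ≤ 2 * (m + 1 + k) by omega) (hk v)
    obtain ⟨w, -, hw⟩ := hL.exists_pow (i := 0) (k := m + k) h1
    refine ⟨w, ?_⟩
    rw [map_smul, map_smul, ← smul_sub, pow_add, mul_comm ((2 : ℤ_[2]) ^ m), mul_smul] at hw
    exact smul_right_injective _ (pow_ne_zero k two_ne_zero) hw
  choose f hf using key
  have huniq : ∀ v u : Md r, (∀ m, ∃ w : Md r, u - b (2 * (m + k)) v = (2 : ℤ_[2]) ^ m • w) →
      f v = u := by
    intro v u hu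
    refine sub_eq_zero.1 (clo_zero hL fun m => ?_)
    obtain ⟨w, hw⟩ := hf v m
    obtain ⟨w', hw'⟩ := hu m
    refine ⟨w - w', ?_⟩
    rw [smul_sub, ← hw, ← hw', sub_sub_sub_cancel_right]
  refine ⟨{ toFun := f, map_add' := fun v w => ?_, map_smul' := fun c v => ?_ }, ?_⟩
  · refine huniq _ _ fun m => ?_
    obtain ⟨x, hx⟩ := hf v m
    obtain ⟨y, hy⟩ := hf w m
    refine ⟨x + y, ?_⟩
    rw [smul_add, ← hx, ← hy, map_add]
    abel
  · refine huniq _ _ fun m => ?_
    obtain ⟨x, hx⟩ := hf v m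
    refine ⟨c • x, ?_⟩
    rw [smul_comm, ← hx, map_smul, smul_sub]
    rfl
  · intro j i v hv
    show f v - b j v ∈ L (i + j)
    obtain ⟨K, hK⟩ := hL.exists_all (i + j)
    obtain ⟨w, hw⟩ := hf v (K + j)
    have h1 : (2 : ℤ_[2]) ^ (K + j) • w ∈ L (i + j) := by
      rw [pow_add, mul_smul]
      exact hK _
    have h2 := clo_tel hL hb (show j ≤ 2 * (K + j + k) by omega) hv
    rw [← hw] at h1
    have h3 := (L (i + j)).add_mem h1 h2
    rwa [sub_add_sub_cancel] at h3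

/-- A linear map which is the identity modulo all `L j` on `L 0` is the identity. -/
private theorem clo_id (hL : IsChain L) (f : Md r →ₗ[ℤ_[2]] Md r)
    (h : ∀ j, ∀ v ∈ L 0, f v - v ∈ L j) : ∀ v, f v = v := by
  intro v
  obtain ⟨k, hk⟩ := hL.big
  have h1 : f ((2 : ℤ_[2]) ^ k • v) - (2 : ℤ_[2]) ^ k • v = 0 :=
    eq_zero_of_chain hL fun j => h j _ (hk v)
  rw [map_smul, sub_eq_zero] at h1
  exact smul_right_injective _ (pow_ne_zero k two_ne_zero) h1

/-- The limit of a sequence of automorphisms is an automorphism. -/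
private theorem clo_aut (hL : IsChain L) {b : ℕ → Au r} (hst : ∀ j i, ∀ v ∈ L i, b j v ∈ L i)
    (hst' : ∀ j i, ∀ v ∈ L i, (b j)⁻¹ v ∈ L i)
    (hb : ∀ j, IsNear L j (b (j + 1) * (b j)⁻¹)) :
    ∃ B : Au r, (∀ i, ∀ v ∈ L i, B v ∈ L i) ∧ (∀ i, ∀ v ∈ L i, B⁻¹ v ∈ L i) ∧
      (∀ j, IsNear L j (B * (b j)⁻¹)) ∧ ∀ j, IsNear L j (b j * B⁻¹) := by
  have hbb : ∀ j (v : Md r), b j ((b j)⁻¹ v) = v := fun j v => LinearEquiv.apply_symm_apply (b j) v
  have hbb' : ∀ j (v : Md r), (b j)⁻¹ (b j v) = v := fun j v => LinearEquiv.symm_apply_apply (b j) v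
  have h1 : ∀ j i, ∀ v ∈ L i, b (j + 1) v - b j v ∈ L (i + j) := by
    intro j i v hv
    have h2 := hb j i (b j v) (hst j i v hv)
    have h3 : (b (j + 1) * (b j)⁻¹ : Au r) (b j v) = b (j + 1) v := by
      show b (j + 1) ((b j)⁻¹ (b j v)) = _
      rw [hbb']
    rwa [h3] at h2
  have h2 : ∀ j i, ∀ v ∈ L i, (b (j + 1))⁻¹ v - (b j)⁻¹ v ∈ L (i + j) := by
    intro j i v hv
    have h3 := hst' (j + 1) _ _ (hb j i v hv)
    have h4 : (b (j + 1))⁻¹ ((b (j + 1) * (b j)⁻¹ : Au r) v - v) = (b j)⁻¹ v - (b (j + 1))⁻¹ v := by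
      rw [map_sub]
      congr 1
      show (b (j + 1))⁻¹ (b (j + 1) ((b j)⁻¹ v)) = _
      rw [hbb']
    rw [h4] at h3
    have h5 := (L (i + j)).neg_mem h3
    rwa [neg_sub] at h5
  obtain ⟨B, hB⟩ := clo_lim hL h1
  obtain ⟨C, hC⟩ := clo_lim (b := fun j => (b j)⁻¹) hL h2
  have hBst : ∀ i, ∀ v ∈ L i, B v ∈ L i := by
    intro i v hv
    have h3 := (L i).add_mem (hB 0 i v hv) (hst 0 i v hv)
    rwa [sub_add_cancel] at h3
  have hCst : ∀ i, ∀ v ∈ L i, C v ∈ L i := by
    intro i v hv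
    have h3 := (L i).add_mem (hC 0 i v hv) (hst' 0 i v hv)
    rwa [sub_add_cancel] at h3
  have hBC : ∀ v, B (C v) = v := by
    refine clo_id hL (B.comp C) fun j v hv => ?_
    have h3 := hL.anti (show j ≤ 0 + j by omega) (hB j 0 (C v) (hCst 0 v hv))
    have h4 := hL.anti (show j ≤ 0 + j by omega) (hst j _ _ (hC j 0 v hv))
    rw [map_sub] at h4
    have h5 : b j ((b j)⁻¹ v) = v := hbb j v
    rw [h5] at h4
    have h6 := (L j).add_mem h3 h4
    rwa [sub_add_sub_cancel] at h6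
  have hCB : ∀ v, C (B v) = v := by
    refine clo_id hL (C.comp B) fun j v hv => ?_
    have h3 := hL.anti (show j ≤ 0 + j by omega) (hC j 0 (B v) (hBst 0 v hv))
    have h4 := hL.anti (show j ≤ 0 + j by omega) (hst' j _ _ (hB j 0 v hv))
    rw [map_sub, hbb'] at h4
    have h6 := (L j).add_mem h3 h4
    rwa [sub_add_sub_cancel] at h6
  refine ⟨LinearEquiv.ofLinearMap B C (LinearMap.ext hBC) (LinearMap.ext hCB), hBst, hCst, ?_, ?_⟩
  · intro j i v hv
    have h3 := hB j i ((b j)⁻¹ v) (hst' j i v hv)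
    rw [hbb] at h3
    exact h3
  · intro j i v hv
    have h3 := hst j _ _ (hC j i v hv)
    rw [map_sub] at h3
    have h5 : b j ((b j)⁻¹ v) = v := hbb j v
    rw [h5] at h3
    exact h3

end

section

variable {r : ℕ} {X Y : Type}

/-- G8 (file `Xg/Clo.lean`): the closed group is a filtered group. -/
theorem filt_Cl {Γ : Type} [Group Γ] (A : Γ →* Au r) (qX : Γ →* Equiv.Perm X) (qY : Γ →* Equiv.Perm Y)
    {L : ℕ → AddSubgroup (Md r)} (hL : IsChain L) (hst : ∀ g i, ∀ v ∈ L i, A g v ∈ L i) :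
    IsFilt (Kg ((MonoidHom.fst _ _).comp (Cl A qX qY L hst).subtype)
      (((MonoidHom.fst _ _).comp (MonoidHom.snd _ _)).comp (Cl A qX qY L hst).subtype)
      (((MonoidHom.snd _ _).comp (MonoidHom.snd _ _)).comp (Cl A qX qY L hst).subtype) L
      (fun g i v hv => g.2.1 i v hv)) := by
  have hinv : ∀ (g : Cl A qX qY L hst) (v : Md r), g.1.1 (g.1.1⁻¹ v) = v := fun g v =>
    LinearEquiv.apply_symm_apply g.1.1 v
  constructor
  · -- conj
    rintro j g ⟨h1, h2, h3⟩ h
    refine ⟨?_, ?_, ?_⟩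
    · rw [map_mul, map_mul, h1, mul_one, map_inv, mul_inv_cancel]
    · rw [map_mul, map_mul, h2, mul_one, map_inv, mul_inv_cancel]
    · intro i v hv
      have h4 := h3 i _ (h.2.2.1 i v hv)
      have h5 := h.2.1 _ _ h4
      rw [map_sub, hinv] at h5
      exact h5
  · rintro j g ⟨h1, h2, h3⟩
    exact ⟨h1, h2, h3.mono hL (Nat.le_succ j)⟩
  · -- sq
    rintro j hj g ⟨h1, h2, h3⟩
    refine ⟨?_, ?_, ?_⟩
    · rw [map_mul, h1, mul_one]
    · rw [map_mul, h2, mul_one]
    · intro i v hv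
      have h4 := h3 i v hv
      have h5 := hL.anti (show i + (j + 1) ≤ i + j + j by omega) (h3 _ _ h4)
      have h6 := hL.anti (show i + (j + 1) ≤ i + j + 2 by omega) (hL.add_self_iff.2 h4)
      have h7 := (L (i + (j + 1))).add_mem h5 h6
      have e : ∀ a : Au r, a (a v - v) - (a v - v) + (a v - v + (a v - v)) = a (a v) - v := by
        intro a
        rw [map_sub]
        abel
      rw [e] at h7
      exact h7
  · -- comm
    rintro j hj g ⟨h1, h2, h3⟩ h ⟨h4, h5, h6⟩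
    refine ⟨?_, ?_, ?_⟩
    · rw [map_mul, map_mul, map_mul, map_inv, map_inv, h1, h4, inv_one, mul_one, mul_one, mul_one]
    · rw [map_mul, map_mul, map_mul, map_inv, map_inv, h2, h5, inv_one, mul_one, mul_one, mul_one]
    · intro i v hv
      have h7 := g.2.2.1 i _ (h.2.2.1 i v hv)
      obtain ⟨w, hw⟩ : ∃ w, w = g.1.1⁻¹ (h.1.1⁻¹ v) := ⟨_, rfl⟩
      rw [← hw] at h7
      have h8 : v = h.1.1 (g.1.1 w) := by rw [hw, hinv, hinv]
      have h9 := hL.anti (show i + (j + 1) ≤ i + j + j by omega) (h3 _ _ (h6 i w h7))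
      have h10 := hL.anti (show i + (j + 1) ≤ i + j + j by omega) (h6 _ _ (h3 i w h7))
      have h11 := (L (i + (j + 1))).sub_mem h9 h10
      have e : ∀ a b : Au r, a (b w - w) - (b w - w) - (b (a w - w) - (a w - w)) =
          a (b w) - b (a w) := by
        intro a b
        rw [map_sub, map_sub]
        abel
      have h12 : g.1.1 (h.1.1 w) - h.1.1 (g.1.1 w) ∈ L (i + (j + 1)) := by
        rw [← e]
        exact h11
      rw [← h8, hw] at h12
      exact h12
  · -- sep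
    intro g hg
    have h1 := (hg 0).1
    have h2 := (hg 0).2.1
    refine Subtype.ext (Prod.ext ?_ (Prod.ext h1 h2))
    refine LinearEquiv.ext fun v => ?_
    exact clo_id hL g.1.1.toLinearMap (fun j v hv => by simpa using (hg j).2.2 0 v hv) v
  · -- lim
    intro s hs
    have hX : ∀ j, (s j).1.2.1 = (s 0).1.2.1 := by
      intro j
      induction j with
      | zero => rfl
      | succ j ih =>
        have h1 := (hs j).1
        rw [map_mul, map_inv, mul_inv_eq_one] at h1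
        exact h1.trans ih
    have hY : ∀ j, (s j).1.2.2 = (s 0).1.2.2 := by
      intro j
      induction j with
      | zero => rfl
      | succ j ih =>
        have h1 := (hs j).2.1
        rw [map_mul, map_inv, mul_inv_eq_one] at h1
        exact h1.trans ih
    obtain ⟨B, hB1, hB2, hB3, hB4⟩ := clo_aut (b := fun j => (s j).1.1) hL
      (fun j => (s j).2.1) (fun j => (s j).2.2.1) (fun j => (hs j).2.2)
    refine ⟨⟨(B, (s 0).1.2), hB1, hB2, fun j => ?_⟩, fun j => ⟨?_, ?_, hB3 j⟩⟩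
    · obtain ⟨γ, h1, h2, h3⟩ := (s j).2.2.2 j
      refine ⟨γ, h1.trans (hX j), h2.trans (hY j), ?_⟩
      have h4 : (A γ * B⁻¹ : Au r) = (A γ * (s j).1.1⁻¹) * ((s j).1.1 * B⁻¹) := by group
      show IsNear L j (A γ * B⁻¹)
      rw [h4]
      exact h3.mul (hB4 j) ((hB4 j).stable hL)
    · rw [map_mul, map_inv, mul_inv_eq_one]
      exact (hX j).symm
    · rw [map_mul, map_inv, mul_inv_eq_one]
      exact (hY j).symm

end

end Pool.Agent.Lib.MP_89bcae_ag.Xg
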