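import Mathlib
import Pool.Agent.Lib.MP_89bcae_ag.Xg.Chain

/-!
# The endomorphisms of the heart which commute with the transpositions
-/

open scoped Classical

namespace Pool.Agent.Lib.MP_89bcae_ag.Xg

open Pool.Agent.Lib.MP_89bcae_ag.Xs (Cst)

section

variable {X : Type} [Fintype X]

omit [Fintype X] in
/-- Two functions with the same class differ by a constant. -/
private lemma sca_eq {f g : X → ZMod 2}
    (h : (QuotientAddGroup.mk f : (X → ZMod 2) ⧸ Cst X) = QuotientAddGroup.mk g) :
    ∃ c : ZMod 2, ∀ s, g s = f s + c := by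
  rw [QuotientAddGroup.eq] at h
  obtain ⟨c, hc⟩ := h
  refine ⟨c, fun s => ?_⟩
  rw [← hc s, Pi.add_apply, Pi.neg_apply]
  ring

omit [Fintype X] in
private lemma sca_of {f g : X → ZMod 2} (c : ZMod 2) (h : ∀ s, g s = f s + c) :
    (QuotientAddGroup.mk f : (X → ZMod 2) ⧸ Cst X) = QuotientAddGroup.mk g := by
  rw [QuotientAddGroup.eq]
  refine ⟨c, fun s => ?_⟩
  rw [Pi.add_apply, Pi.neg_apply, h s]
  ring

/-- The indicator of `{o, j}`. -/
private noncomputable def sca_v (o j : X) : X → ZMod 2 := Pi.single o 1 + Pi.single j 1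

private lemma sca_v_sum (o j : X) : ∑ s, sca_v o j s = 0 := by
  simp only [sca_v, Pi.add_apply, Finset.sum_add_distrib, Finset.sum_pi_single', Finset.mem_univ,
    if_true]
  decide

omit [Fintype X] in
private lemma sca_v_apply (o j s : X) :
    sca_v o j s = (if s = o then 1 else 0) + (if s = j then 1 else 0) := by
  simp only [sca_v, Pi.add_apply, Pi.single_apply]

/-- G11: an endomorphism of the heart which commutes with the transpositions is `0` or `1`. -/
theorem scalar_of_comm (hX : 6 ≤ Fintype.card X) (hX' : Even (Fintype.card X))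
    (x : (X → ZMod 2) ⧸ Cst X → (X → ZMod 2) ⧸ Cst X)
    (hsum : ∀ f : X → ZMod 2, ∑ s, f s = 0 → ∃ f' : X → ZMod 2, ∑ s, f' s = 0 ∧ x (QuotientAddGroup.mk f) = QuotientAddGroup.mk f')
    (hadd : ∀ f g : X → ZMod 2, ∑ s, f s = 0 → ∑ s, g s = 0 →
      x (QuotientAddGroup.mk (f + g)) = x (QuotientAddGroup.mk f) + x (QuotientAddGroup.mk g))
    (hcomm : ∀ (i j : X) (f f' : X → ZMod 2), ∑ s, f s = 0 → x (QuotientAddGroup.mk f) = QuotientAddGroup.mk f' →
      x (QuotientAddGroup.mk fun s => f (Equiv.swap i j s)) = QuotientAddGroup.mk fun s => f' (Equiv.swap i j s)) :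
    (∀ f : X → ZMod 2, ∑ s, f s = 0 → x (QuotientAddGroup.mk f) = 0) ∨
      ∀ f : X → ZMod 2, ∑ s, f s = 0 → x (QuotientAddGroup.mk f) = QuotientAddGroup.mk f := by
  -- three different points
  obtain ⟨o, j, z, hoj, hoz, hjz⟩ : ∃ o j z : X, o ≠ j ∧ o ≠ z ∧ j ≠ z := by
    rw [← Fintype.two_lt_card_iff]
    omega
  -- the image of `v o j`
  obtain ⟨f', -, hf'⟩ := hsum (sca_v o j) (sca_v_sum o j)
  have hinv : ∀ k l : X, (fun s => sca_v o j (Equiv.swap k l s)) = sca_v o j →
      ∃ c : ZMod 2, ∀ s, f' (Equiv.swap k l s) = f' s + c := by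
    intro k l h
    have h1 := hcomm k l (sca_v o j) f' (sca_v_sum o j) hf'
    rw [h, hf'] at h1
    exact sca_eq h1
  have h1 : ∀ k : X, k ≠ o → k ≠ j → f' k = f' z := by
    intro k hko hkj
    obtain ⟨c, hc⟩ := hinv k z (by
      funext s
      rw [sca_v_apply, sca_v_apply]
      have e1 : (Equiv.swap k z s = o) ↔ s = o := by
        rw [Equiv.swap_apply_eq_iff, Equiv.swap_apply_of_ne_of_ne hko.symm hoz]
      have e2 : (Equiv.swap k z s = j) ↔ s = j := by
        rw [Equiv.swap_apply_eq_iff, Equiv.swap_apply_of_ne_of_ne hkj.symm hjz]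
      simp only [e1, e2])
    have h2 := hc o
    rw [Equiv.swap_apply_of_ne_of_ne hko.symm hoz] at h2
    have h3 : c = 0 := by
      have h4 : f' o + 0 = f' o + c := by rw [add_zero]; exact h2
      exact (add_left_cancel h4).symm
    have h5 := hc z
    rw [Equiv.swap_apply_right, h3, add_zero] at h5
    exact h5
  have h2 : f' j = f' o := by
    obtain ⟨c, hc⟩ := hinv o j (by
      funext s
      rw [sca_v_apply, sca_v_apply]
      have e1 : (Equiv.swap o j s = o) ↔ s = j := by
        rw [Equiv.swap_apply_eq_iff, Equiv.swap_apply_left]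
      have e2 : (Equiv.swap o j s = j) ↔ s = o := by
        rw [Equiv.swap_apply_eq_iff, Equiv.swap_apply_right]
      simp only [e1, e2]
      exact add_comm _ _)
    have h2 := hc z
    rw [Equiv.swap_apply_of_ne_of_ne hoz.symm hjz.symm] at h2
    have h3 : c = 0 := by
      have h4 : f' z + 0 = f' z + c := by rw [add_zero]; exact h2
      exact (add_left_cancel h4).symm
    have h5 := hc o
    rw [Equiv.swap_apply_left, h3, add_zero] at h5
    exact h5
  -- the scalar
  set ε : ZMod 2 := f' o + f' z with hε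
  have h22 : ∀ a : ZMod 2, a + a = 0 := by decide
  have hj : x (QuotientAddGroup.mk (sca_v o j)) = QuotientAddGroup.mk (ε • sca_v o j) := by
    rw [hf']
    refine sca_of (f' z) fun s => ?_
    rw [Pi.smul_apply, smul_eq_mul, sca_v_apply, hε]
    by_cases hso : s = o
    · rw [hso, if_pos rfl, if_neg hoj]
      ring
    · by_cases hsj : s = j
      · rw [hsj, if_neg hoj.symm, if_pos rfl, h2]
        ring
      · rw [if_neg hso, if_neg hsj, h1 s hso hsj, add_zero, mul_zero, h22]
  have hk : ∀ k : X, x (QuotientAddGroup.mk (sca_v o k)) = QuotientAddGroup.mk (ε • sca_v o k) := by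
    intro k
    by_cases hko : k = o
    · have e1 : sca_v o k = 0 := by
        funext s
        rw [sca_v_apply, hko, h22]
        rfl
      have e2 := hadd 0 0 (by simp) (by simp)
      rw [add_zero] at e2
      rw [e1, smul_zero]
      have e3 : x (QuotientAddGroup.mk (0 : X → ZMod 2)) + 0 =
          x (QuotientAddGroup.mk (0 : X → ZMod 2)) + x (QuotientAddGroup.mk (0 : X → ZMod 2)) := by
        rw [add_zero]; exact e2
      exact (add_left_cancel e3).symm
    · have e1 := hcomm j k (sca_v o j) (ε • sca_v o j) (sca_v_sum o j) hj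
      have e2 : (fun s => sca_v o j (Equiv.swap j k s)) = sca_v o k := by
        funext s
        rw [sca_v_apply, sca_v_apply]
        have e3 : (Equiv.swap j k s = o) ↔ s = o := by
          rw [Equiv.swap_apply_eq_iff, Equiv.swap_apply_of_ne_of_ne hoj (Ne.symm hko)]
        have e4 : (Equiv.swap j k s = j) ↔ s = k := by
          rw [Equiv.swap_apply_eq_iff, Equiv.swap_apply_left]
        simp only [e3, e4]
      have e5 : (fun s => (ε • sca_v o j) (Equiv.swap j k s)) = ε • sca_v o k := by
        rw [← e2]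
        rfl
      rw [e2, e5] at e1
      exact e1
  -- the general case
  have hall : ∀ (f : X → ZMod 2) (t : Finset X),
      ∑ s, (∑ k ∈ t, f k • sca_v o k) s = 0 ∧
      x (QuotientAddGroup.mk (∑ k ∈ t, f k • sca_v o k)) =
        QuotientAddGroup.mk (ε • ∑ k ∈ t, f k • sca_v o k) := by
    intro f t
    induction t using Finset.induction_on with
    | empty =>
      refine ⟨by simp, ?_⟩
      have h3 := hk o
      have e1 : sca_v o o = 0 := by
        funext s
        rw [sca_v_apply, h22]
        rfl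
      rw [e1] at h3
      rw [Finset.sum_empty]
      exact h3
    | insert k t hkt ih =>
      obtain ⟨ih1, ih2⟩ := ih
      have e0 : ∀ a : ZMod 2, a = 0 ∨ a = 1 := by decide
      rw [Finset.sum_insert hkt]
      rcases e0 (f k) with h0 | h0
      · rw [h0, zero_smul, zero_add]
        exact ⟨ih1, ih2⟩
      · rw [h0, one_smul]
        refine ⟨?_, ?_⟩
        · simp only [Pi.add_apply, Finset.sum_add_distrib]
          rw [sca_v_sum, ih1, add_zero]
        · rw [hadd _ _ (sca_v_sum o k) ih1, ih2, hk k, smul_add, QuotientAddGroup.mk_add]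
  have hgen : ∀ f : X → ZMod 2, ∑ s, f s = 0 → ∑ k, f k • sca_v o k = f := by
    intro f hf
    funext s
    rw [Finset.sum_apply]
    simp only [Pi.smul_apply, smul_eq_mul, sca_v_apply, mul_add, Finset.sum_add_distrib]
    rw [← Finset.sum_mul, hf, zero_mul, zero_add]
    simp
  have hmain : ∀ f : X → ZMod 2, ∑ s, f s = 0 →
      x (QuotientAddGroup.mk f) = QuotientAddGroup.mk (ε • f) := by
    intro f hf
    have h3 := (hall f Finset.univ).2
    rwa [hgen f hf] at h3
  have e0 : ∀ a : ZMod 2, a = 0 ∨ a = 1 := by decide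
  rcases e0 ε with h0 | h0
  · refine Or.inl fun f hf => ?_
    rw [hmain f hf, h0, zero_smul]
    rfl
  · refine Or.inr fun f hf => ?_
    rw [hmain f hf, h0, one_smul]

end

end Pool.Agent.Lib.MP_89bcae_ag.Xg
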