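import Mathlib
import Pool.Agent.Lib.MP_89bcae_ag.Xg.Chain
import Pool.Agent.Lib.MP_89bcae_ag.Xg.Hrt
import Pool.Agent.Lib.MP_89bcae_ag.Xg.Sca
import Pool.Agent.Lib.MP_89bcae_ag.Xs.Amp

/-!
# Theorem G: an element with an injective leading term on `L 1 / L 2` and the leading term `0` on `L 0 / L 1`
-/

open scoped Classical

namespace Pool.Agent.Lib.MP_89bcae_ag.Xg

open Pool.Agent.Lib.MP_89bcae_ag.Xs (Cst)
open Pool.Agent.Lib.MP_89bcae_ag.Xs.Amp (S0 mem_S0 ample_of_perm)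

section act

variable {Y : Type}

/-- The action of a permutation on the functions. -/
def injPf (γ : Equiv.Perm Y) : (Y → ZMod 2) →+ (Y → ZMod 2) where
  toFun f := fun y => f (γ⁻¹ y)
  map_zero' := rfl
  map_add' _ _ := rfl

/-- The action of the permutations on the functions modulo the constant functions. -/
def injAct (Y : Type) : Equiv.Perm Y →* AddMonoid.End ((Y → ZMod 2) ⧸ Cst Y) where
  toFun γ := QuotientAddGroup.map (Cst Y) (Cst Y) (injPf γ) (by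
    rintro f ⟨c, hc⟩
    exact ⟨c, fun x => hc _⟩)
  map_one' := by
    refine AddMonoidHom.ext fun x => ?_
    obtain ⟨f, rfl⟩ := QuotientAddGroup.mk_surjective x
    rfl
  map_mul' := by
    intro γ δ
    refine AddMonoidHom.ext fun x => ?_
    obtain ⟨f, rfl⟩ := QuotientAddGroup.mk_surjective x
    change (QuotientAddGroup.mk (injPf (γ * δ) f) : (Y → ZMod 2) ⧸ Cst Y) =
      QuotientAddGroup.mk (injPf γ (injPf δ f))
    congr 1

lemma injAct_mk (γ : Equiv.Perm Y) (f : Y → ZMod 2) :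
    injAct Y γ (QuotientAddGroup.mk f) = QuotientAddGroup.mk fun y => f (γ⁻¹ y) := rfl

/-- The heart. -/
def injU (Y : Type) [Fintype Y] : AddSubgroup ((Y → ZMod 2) ⧸ Cst Y) :=
  (S0 Y).map (QuotientAddGroup.mk' (Cst Y))

lemma mem_injU [Fintype Y] {y : (Y → ZMod 2) ⧸ Cst Y} :
    y ∈ injU Y ↔ ∃ f : Y → ZMod 2, ∑ s, f s = 0 ∧ y = QuotientAddGroup.mk f := by
  constructor
  · rintro ⟨f, hf, rfl⟩
    exact ⟨f, hf, rfl⟩
  · rintro ⟨f, hf, rfl⟩
    exact ⟨f, hf, rfl⟩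

lemma inj_two (y : (Y → ZMod 2) ⧸ Cst Y) : y + y = 0 := by
  obtain ⟨f, rfl⟩ := QuotientAddGroup.mk_surjective y
  rw [← QuotientAddGroup.mk_add]
  have h1 : f + f = 0 := by
    funext s
    exact CharTwo.add_self_eq_zero _
  rw [h1]
  rfl

/-- A nonzero group of endomorphisms of the heart which is stable contains an injective one. -/
theorem inj_ample [Fintype Y] (hY : 6 ≤ Fintype.card Y) (hY' : Even (Fintype.card Y))
    (A : AddSubgroup (injU Y →+ injU Y)) (hA0 : A ≠ ⊥)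
    (hA : ∀ γ : Equiv.Perm Y, ∀ K ∈ A, ∃ K' ∈ A, ∀ u u' : injU Y,
      (u' : (Y → ZMod 2) ⧸ Cst Y) = injAct Y γ u →
      ((K' u' : injU Y) : (Y → ZMod 2) ⧸ Cst Y) = injAct Y γ (K u)) :
    ∃ K ∈ A, Function.Injective K := by
  let _ : DistribMulAction (Equiv.Perm Y) ((Y → ZMod 2) ⧸ Cst Y) :=
    DistribMulAction.compHom _ (injAct Y)
  have hsm : ∀ (γ : Equiv.Perm Y) (y : (Y → ZMod 2) ⧸ Cst Y), γ • y = injAct Y γ y :=
    fun γ y => rfl
  have h1 : ZInj.Ample (Equiv.Perm Y) (injU Y) := by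
    refine ample_of_perm hY hY' (injU Y) (fun f => QuotientAddGroup.mk f) ?_ ?_ ?_ ?_ ?_
    · intro f _ g _
      rfl
    · intro f hf
      exact mem_injU.2 ⟨f, hf, rfl⟩
    · intro u hu
      obtain ⟨f, hf, rfl⟩ := mem_injU.1 hu
      exact ⟨f, hf, rfl⟩
    · exact (QuotientAddGroup.eq_zero_iff _).2 ⟨1, fun _ => rfl⟩
    · intro i j _
      refine ⟨Equiv.swap i j, fun f _ => ?_⟩
      rw [hsm, injAct_mk, Equiv.swap_inv]
      rfl
  refine h1.inj (injU Y) le_rfl ?_ A hA0 ?_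
  · intro γ v hv
    obtain ⟨f, hf, rfl⟩ := mem_injU.1 hv
    rw [hsm, injAct_mk]
    refine mem_injU.2 ⟨_, ?_, rfl⟩
    rw [← hf]
    exact Equiv.sum_comp γ⁻¹ f
  · intro γ K hK
    exact hA γ K hK

end act

section

variable {r : ℕ} {G X Y : Type} [Group G] [Fintype X] [Fintype Y]

lemma inj_mem {a : G →* Au r} {q : G →* Equiv.Perm Y} {A B : AddSubgroup (Md r)}
    {d : Md r → (Y → ZMod 2) ⧸ Cst Y} (h : IsHrt a q A B d) {v : Md r} (hv : v ∈ A) : d v ∈ injU Y := by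
  obtain ⟨f, hf, h1⟩ := h.sum v hv
  exact mem_injU.2 ⟨f, hf, h1⟩

lemma inj_eq_iff {a : G →* Au r} {q : G →* Equiv.Perm Y} {A B : AddSubgroup (Md r)}
    {d : Md r → (Y → ZMod 2) ⧸ Cst Y} (h : IsHrt a q A B d) {v w : Md r} (hv : v ∈ A) (hw : w ∈ A) :
    d v = d w ↔ v - w ∈ B := by
  have h1 := h.add (v - w) (A.sub_mem hv hw) w hw
  rw [sub_add_cancel] at h1
  rw [← h.ker _ (A.sub_mem hv hw), h1, add_eq_right]

lemma inj_act {a : G →* Au r} {q : G →* Equiv.Perm Y} {A B : AddSubgroup (Md r)}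
    {d : Md r → (Y → ZMod 2) ⧸ Cst Y} (h : IsHrt a q A B d) (s : G) {v : Md r} (hv : v ∈ A) :
    d (a s v) = injAct Y (q s) (d v) := by
  obtain ⟨f, hf, h1⟩ := h.sum v hv
  rw [h.act s v hv f h1, h1, injAct_mk]

/-- `K` is the leading term of level `i` of the automorphism `h`, on `L 1 / L 2`. -/
def InjRel (L : ℕ → AddSubgroup (Md r)) (d : Md r → (Y → ZMod 2) ⧸ Cst Y) (i : ℕ) (h : Au r)
    (K : injU Y →+ injU Y) : Prop :=
  ∀ v ∈ L 1, ∀ w ∈ L 1, h v - v = (2 : ℤ_[2]) ^ i • w → ∀ hu : d v ∈ injU Y,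
    ((K ⟨d v, hu⟩ : injU Y) : (Y → ZMod 2) ⧸ Cst Y) = d w

lemma inj_lift {L : ℕ → AddSubgroup (Md r)} (hL : IsChain L) {i j : ℕ} {h : Au r}
    (hn : IsNear L (2 * i) h) {v : Md r} (hv : v ∈ L j) : ∃ w ∈ L j, h v - v = (2 : ℤ_[2]) ^ i • w :=
  hL.exists_pow (hn j v hv)

lemma inj_well {a : G →* Au r} {q : G →* Equiv.Perm Y} {L : ℕ → AddSubgroup (Md r)} (hL : IsChain L)
    {d : Md r → (Y → ZMod 2) ⧸ Cst Y} (hd : IsHrt a q (L 1) (L 2) d) {i : ℕ} {h : Au r}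
    (hn : IsNear L (2 * i) h) {v w v' w' : Md r} (hv : v ∈ L 1) (hw : w ∈ L 1) (hv' : v' ∈ L 1)
    (hw' : w' ∈ L 1) (e : h v - v = (2 : ℤ_[2]) ^ i • w) (e' : h v' - v' = (2 : ℤ_[2]) ^ i • w')
    (hvv : d v = d v') : d w = d w' := by
  rw [inj_eq_iff hd hv hv'] at hvv
  rw [inj_eq_iff hd hw hw', ← hL.pow_smul_iff (k := i), smul_sub, ← e, ← e']
  have h1 := hn 2 _ hvv
  have h2 : h v - v - (h v' - v') = h (v - v') - (v - v') := by
    rw [map_sub]
    abel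
  rw [h2]
  exact h1

lemma inj_exists_hom {a : G →* Au r} {q : G →* Equiv.Perm Y} {L : ℕ → AddSubgroup (Md r)}
    (hL : IsChain L) {d : Md r → (Y → ZMod 2) ⧸ Cst Y} (hd : IsHrt a q (L 1) (L 2) d)
    (hs : ∀ u ∈ injU Y, ∃ v ∈ L 1, d v = u) {i : ℕ} {h : Au r} (hn : IsNear L (2 * i) h) :
    ∃ K, InjRel L d i h K := by
  choose v hv hdv using fun u : injU Y => hs u u.2
  choose w hw hdw using fun u : injU Y => inj_lift hL hn (hv u)
  refine ⟨AddMonoidHom.mk' (fun u => ⟨d (w u), inj_mem hd (hw u)⟩) fun u u' => ?_, ?_⟩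
  · apply Subtype.ext
    change d (w (u + u')) = d (w u) + d (w u')
    rw [← hd.add _ (hw u) _ (hw u')]
    refine inj_well hL hd hn (hv _) (hw _) ((L 1).add_mem (hv u) (hv u'))
      ((L 1).add_mem (hw u) (hw u')) (hdw _) ?_ ?_
    · rw [map_add, smul_add, ← hdw u, ← hdw u']
      abel
    · rw [hd.add _ (hv u) _ (hv u'), hdv, hdv, hdv]
      rfl
  · intro v' hv' w' hw' e hu
    change d (w ⟨d v', hu⟩) = d w'
    exact inj_well hL hd hn (hv _) (hw _) hv' hw' (hdw _) e (hdv _)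

omit [Fintype X] [Fintype Y] in
lemma inj_conj {a : G →* Au r} {qX : G →* Equiv.Perm X} {qY : G →* Equiv.Perm Y} {L : ℕ → AddSubgroup (Md r)}
    {hst : ∀ g i, ∀ v ∈ L i, a g v ∈ L i} {j : ℕ} (s : G) {g : G} (hg : g ∈ Kg a qX qY L hst j) :
    s * g * s⁻¹ ∈ Kg a qX qY L hst j := by
  obtain ⟨h1, h2, h3⟩ := mem_Kg.1 hg
  refine mem_Kg.2 ⟨?_, ?_, ?_⟩
  · rw [map_mul, map_mul, h1, mul_one, ← map_mul, mul_inv_cancel, map_one]
  · rw [map_mul, map_mul, h2, mul_one, ← map_mul, mul_inv_cancel, map_one]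
  · intro i v hv
    have h4 := hst s _ _ (h3 i _ (hst s⁻¹ i v hv))
    rw [map_sub] at h4
    have h5 : a s (a s⁻¹ v) = v := by
      rw [map_inv]
      exact LinearEquiv.apply_symm_apply (a s) v
    rw [h5] at h4
    have h6 : a (s * g * s⁻¹) v = a s (a g (a s⁻¹ v)) := by
      rw [map_mul, map_mul]
      rfl
    rw [h6]
    exact h4

lemma inj_mul_apply (a : G →* Au r) (g h : G) (v : Md r) : a (g * h) v = a g (a h v) := by
  rw [map_mul]
  rfl

/-- G15 (file `Xg/Inj.lean`): there is an element with leading term `(0, d)`, where `d` is injective. -/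
theorem exists_inj {a : G →* Au r} {qX : G →* Equiv.Perm X} {qY : G →* Equiv.Perm Y} {L : ℕ → AddSubgroup (Md r)}
    (hL : IsChain L) {hst : ∀ g i, ∀ v ∈ L i, a g v ∈ L i}
    (hq : ∀ g h, ∃ x, qX x = g ∧ qY x = h) {d0 : Md r → (X → ZMod 2) ⧸ Cst X} {d1 : Md r → (Y → ZMod 2) ⧸ Cst Y}
    (hd0 : IsHrt a qX (L 0) (L 1) d0) (hd1 : IsHrt a qY (L 1) (L 2) d1)
    (hY : 6 ≤ Fintype.card Y) (hY' : Even (Fintype.card Y)) {i : ℕ} (hi : 1 ≤ i)
    {g : G} (hg : g ∈ Kg a qX qY L hst (2 * i)) (hg' : ¬ IsScalar L i (a g)) :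
    ∃ h ∈ Kg a qX qY L hst (2 * i), (∀ v ∈ L 0, a h v - v ∈ L (2 * i + 1)) ∧
      ∀ v ∈ L 1, a h v - v ∈ L (2 * i + 2) → v ∈ L 2 := by
  have hgn : IsNear L (2 * i) (a g) := (mem_Kg.1 hg).2.2
  have hne : ¬ L 1 ≤ L 2 := by
    intro h1
    refine hg' (Or.inl fun v hv => ?_)
    rw [show 2 * i + 2 = 2 + 2 * i by ring]
    exact hgn 2 v (h1 hv)
  have hqY : Function.Surjective qY := fun h => by
    obtain ⟨x, _, hx⟩ := hq 1 h
    exact ⟨x, hx⟩
  have hsurj : ∀ u ∈ injU Y, ∃ v ∈ L 1, d1 v = u := by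
    intro u hu
    obtain ⟨f, hf, rfl⟩ := mem_injU.1 hu
    exact hd1.surj hY hY' hqY (fun g v hv => hst g 1 v hv) hne hf
  have hexp : ∀ {v : Md r}, (2 : ℤ_[2]) ^ i • v ∈ L (2 * i + 2) ↔ v ∈ L 2 := by
    intro v
    rw [show 2 * i + 2 = 2 + 2 * i by ring]
    exact hL.pow_smul_iff
  have hd1z : d1 0 = 0 := (hd1.ker 0 (L 1).zero_mem).2 (L 2).zero_mem
  -- the group of the leading terms
  let A : AddSubgroup (injU Y →+ injU Y) :=
    { carrier := {K | ∃ h ∈ Kg a qX qY L hst (2 * i), (∀ v ∈ L 0, a h v - v ∈ L (2 * i + 1)) ∧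
        InjRel L d1 i (a h) K}
      zero_mem' := by
        refine ⟨1, one_mem _, fun v _ => ?_, fun v hv w hw e hu => ?_⟩
        · rw [map_one]
          change v - v ∈ _
          rw [sub_self]
          exact (L _).zero_mem
        · rw [map_one] at e
          change v - v = _ at e
          rw [sub_self] at e
          have h1 : w = 0 := by
            rcases smul_eq_zero.1 e.symm with h2 | h2
            · exact absurd h2 (pow_ne_zero _ two_ne_zero)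
            · exact h2
          rw [h1, hd1z]
          rfl
      add_mem' := by
        rintro K1 K2 ⟨h1, hh1, h10, hr1⟩ ⟨h2, hh2, h20, hr2⟩
        have n1 : IsNear L (2 * i) (a h1) := (mem_Kg.1 hh1).2.2
        have n2 : IsNear L (2 * i) (a h2) := (mem_Kg.1 hh2).2.2
        refine ⟨h1 * h2, mul_mem hh1 hh2, fun v hv => ?_, fun v hv w hw e hu => ?_⟩
        · rw [inj_mul_apply]
          have h3 := (L (2 * i + 1)).add_mem (h10 _ (hst h2 0 v hv)) (h20 v hv)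
          rwa [sub_add_sub_cancel] at h3
        · obtain ⟨w1, hw1, e1⟩ := inj_lift hL n1 hv
          obtain ⟨w2, hw2, e2⟩ := inj_lift hL n2 hv
          have hz : a h1 w2 - w2 ∈ L 2 := hL.anti (by omega) (n1 1 w2 hw2)
          have h3 : w = w1 + w2 + (a h1 w2 - w2) := by
            have h4 : (2 : ℤ_[2]) ^ i • w = (2 : ℤ_[2]) ^ i • (w1 + w2 + (a h1 w2 - w2)) := by
              rw [← e, inj_mul_apply, smul_add, smul_add, smul_sub, ← e1, ← map_smul, ← e2, map_sub]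
              abel
            exact smul_right_injective _ (pow_ne_zero i two_ne_zero) h4
          have h5 : d1 w = d1 w1 + d1 w2 := by
            rw [h3, hd1.add _ ((L 1).add_mem hw1 hw2) _ (hL.le 1 hz), hd1.add _ hw1 _ hw2,
              (hd1.ker _ (hL.le 1 hz)).2 hz, add_zero]
          rw [h5, ← hr1 v hv w1 hw1 e1 hu, ← hr2 v hv w2 hw2 e2 hu]
          rfl
      neg_mem' := by
        rintro K ⟨h, hh, h0, hr⟩
        refine ⟨h, hh, h0, fun v hv w hw e hu => ?_⟩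
        rw [← hr v hv w hw e hu]
        change -((K ⟨d1 v, hu⟩ : injU Y) : (Y → ZMod 2) ⧸ Cst Y) = _
        exact neg_eq_of_add_eq_zero_left (inj_two _) }
  have hmemA : ∀ {h : G}, h ∈ Kg a qX qY L hst (2 * i) → (∀ v ∈ L 0, a h v - v ∈ L (2 * i + 1)) →
      ∃ K ∈ A, InjRel L d1 i (a h) K := by
    intro h hh h0
    obtain ⟨K, hK⟩ := inj_exists_hom hL hd1 hsurj (mem_Kg.1 hh).2.2
    exact ⟨K, ⟨h, hh, h0, hK⟩, hK⟩
  have hA0 : A ≠ ⊥ := by
    intro hA0
    apply hg'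
    -- the commutators with the elements which act trivially on `X`
    have hcomm : ∀ s : G, qX s = 1 → ∀ v ∈ L 1, a s (a g v) - a g (a s v) ∈ L (2 * i + 2) := by
      intro s hs
      have hcm : s * g * s⁻¹ * g⁻¹ ∈ Kg a qX qY L hst (2 * i) := mul_mem (inj_conj s hg) (inv_mem hg)
      have hap : ∀ v, a (s * g * s⁻¹ * g⁻¹) (a g (a s v)) = a s (a g v) := by
        intro v
        rw [← inj_mul_apply, ← inj_mul_apply, ← inj_mul_apply]
        congr 2
        group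
      have hback : ∀ j, ∀ v ∈ L j, ∃ v0 ∈ L j, v = a g (a s v0) := by
        intro j v hv
        refine ⟨a (s⁻¹ * g⁻¹) v, hst _ j v hv, ?_⟩
        rw [← inj_mul_apply, ← inj_mul_apply]
        have h1 : g * (s * (s⁻¹ * g⁻¹)) = 1 := by group
        rw [← mul_assoc] at h1
        rw [mul_assoc, show s * (s⁻¹ * g⁻¹) = g⁻¹ by group, mul_inv_cancel, map_one]
        rfl
      have h0 : ∀ v ∈ L 0, a (s * g * s⁻¹ * g⁻¹) v - v ∈ L (2 * i + 1) := by
        intro v hv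
        obtain ⟨v0, hv0, rfl⟩ := hback 0 v hv
        rw [hap]
        obtain ⟨u, hu, e⟩ := inj_lift hL hgn hv0
        have hv1 : a s v0 - v0 ∈ L 1 := hd0.triv (fun g v hv => hst g 0 v hv) hs hv0
        have hu1 : a s u - u ∈ L 1 := hd0.triv (fun g v hv => hst g 0 v hv) hs hu
        have h1 := hgn 1 _ hv1
        have h2 := (hL.pow_smul_iff (k := i)).2 hu1
        have h3 : a s (a g v0) - a g (a s v0) = (2 : ℤ_[2]) ^ i • (a s u - u) -
            (a g (a s v0 - v0) - (a s v0 - v0)) := by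
          rw [smul_sub, ← map_smul, ← e, map_sub, map_sub]
          abel
        rw [h3, show 2 * i + 1 = 1 + 2 * i by ring]
        exact (L _).sub_mem h2 h1
      obtain ⟨K, hK, hrel⟩ := hmemA hcm h0
      rw [hA0, AddSubgroup.mem_bot] at hK
      intro v hv
      have hv' : a g (a s v) ∈ L 1 := hst g 1 _ (hst s 1 v hv)
      obtain ⟨w, hw, e⟩ := inj_lift hL (mem_Kg.1 hcm).2.2 hv'
      have h1 := hrel _ hv' w hw e (inj_mem hd1 hv')
      rw [hK] at h1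
      have h2 : w ∈ L 2 := (hd1.ker w hw).1 h1.symm
      rw [hap] at e
      rw [e]
      exact hexp.2 h2
    obtain ⟨K, hK⟩ := inj_exists_hom hL hd1 hsurj hgn
    let x : (Y → ZMod 2) ⧸ Cst Y → (Y → ZMod 2) ⧸ Cst Y := fun y =>
      if h : y ∈ injU Y then ((K ⟨y, h⟩ : injU Y) : (Y → ZMod 2) ⧸ Cst Y) else 0
    have hx : ∀ y (h : y ∈ injU Y), x y = ((K ⟨y, h⟩ : injU Y) : (Y → ZMod 2) ⧸ Cst Y) :=
      fun y h => dif_pos h
    have hxd : ∀ v ∈ L 1, ∀ w ∈ L 1, a g v - v = (2 : ℤ_[2]) ^ i • w → x (d1 v) = d1 w := by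
      intro v hv w hw e
      rw [hx _ (inj_mem hd1 hv)]
      exact hK v hv w hw e _
    have hsc := scalar_of_comm hY hY' x (by
      intro f hf
      have h1 := (K ⟨QuotientAddGroup.mk f, mem_injU.2 ⟨f, hf, rfl⟩⟩).2
      obtain ⟨f', hf', h2⟩ := mem_injU.1 h1
      exact ⟨f', hf', by rw [hx _ (mem_injU.2 ⟨f, hf, rfl⟩), h2]⟩) (by
      intro f f' hf hf'
      have m1 : (QuotientAddGroup.mk f : (Y → ZMod 2) ⧸ Cst Y) ∈ injU Y := mem_injU.2 ⟨f, hf, rfl⟩
      have m2 : (QuotientAddGroup.mk f' : (Y → ZMod 2) ⧸ Cst Y) ∈ injU Y := mem_injU.2 ⟨f', hf', rfl⟩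
      rw [QuotientAddGroup.mk_add, hx _ m1, hx _ m2, hx _ ((injU Y).add_mem m1 m2)]
      have h1 : (⟨(QuotientAddGroup.mk f : (Y → ZMod 2) ⧸ Cst Y) + QuotientAddGroup.mk f',
          (injU Y).add_mem m1 m2⟩ : injU Y) = ⟨_, m1⟩ + ⟨_, m2⟩ := rfl
      rw [h1, map_add]
      rfl) (by
      intro i' j' f f' hf hff
      obtain ⟨s, hs, hsY⟩ := hq 1 (Equiv.swap i' j')
      obtain ⟨v, hv, hdv⟩ := hsurj (QuotientAddGroup.mk f) (mem_injU.2 ⟨f, hf, rfl⟩)
      obtain ⟨w, hw, e⟩ := inj_lift hL hgn hv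
      have hsv := hst s 1 v hv
      obtain ⟨w', hw', e'⟩ := inj_lift hL hgn hsv
      have h1 := hcomm s hs v hv
      have h2 : a s (a g v) - a g (a s v) = (2 : ℤ_[2]) ^ i • (a s w - w') := by
        rw [smul_sub, ← map_smul, ← e, ← e', map_sub]
        abel
      rw [h2, hexp, ← inj_eq_iff hd1 (hst s 1 w hw) hw'] at h1
      have h3 := hxd _ hsv w' hw' e'
      rw [← h1, inj_act hd1 s hv, inj_act hd1 s hw, ← hxd v hv w hw e, hdv, hff, hsY, injAct_mk,
        injAct_mk, Equiv.swap_inv] at h3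
      exact h3)
    rcases hsc with h1 | h1
    · left
      intro v hv
      obtain ⟨w, hw, e⟩ := inj_lift hL hgn hv
      obtain ⟨f, hf, h2⟩ := hd1.sum v hv
      have h3 := hxd v hv w hw e
      rw [h2, h1 f hf] at h3
      rw [e, hexp]
      exact (hd1.ker w hw).1 h3.symm
    · right
      intro v hv
      obtain ⟨w, hw, e⟩ := inj_lift hL hgn hv
      obtain ⟨f, hf, h2⟩ := hd1.sum v hv
      have h3 := hxd v hv w hw e
      rw [h2, h1 f hf, ← h2, inj_eq_iff hd1 hv hw] at h3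
      rw [e, ← smul_sub, hexp]
      have h4 := (L 2).neg_mem h3
      rwa [neg_sub] at h4
  obtain ⟨K, ⟨h, hh, h0, hrel⟩, hinj⟩ := inj_ample hY hY' A hA0 (by
    rintro γ K ⟨h, hh, h0, hrel⟩
    obtain ⟨s, hs, hsY⟩ := hq 1 γ
    have hapc : ∀ v, a (s * h * s⁻¹) (a s v) = a s (a h v) := by
      intro v
      rw [← inj_mul_apply, ← inj_mul_apply]
      congr 2
      group
    obtain ⟨K', hK', hrel'⟩ := hmemA (inj_conj s hh) (by
      intro v hv
      have h1 := hst s _ _ (h0 _ (hst s⁻¹ 0 v hv))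
      have h2 : a s (a s⁻¹ v) = v := by
        rw [map_inv]
        exact LinearEquiv.apply_symm_apply (a s) v
      rw [map_sub, ← hapc, h2] at h1
      exact h1)
    refine ⟨K', hK', ?_⟩
    rintro ⟨u, hu⟩ ⟨u', hu'⟩ huu
    obtain ⟨v, hv, rfl⟩ := hsurj u hu
    obtain ⟨w, hw, e⟩ := inj_lift hL (mem_Kg.1 hh).2.2 hv
    change u' = injAct Y γ (d1 v) at huu
    have h1 : u' = d1 (a s v) := by rw [huu, inj_act hd1 s hv, hsY]
    subst h1
    rw [hrel v hv w hw e hu, ← hsY, ← inj_act hd1 s hw]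
    refine hrel' (a s v) (hst s 1 v hv) (a s w) (hst s 1 w hw) ?_ hu'
    rw [hapc, ← map_smul, ← e, map_sub])
  refine ⟨h, hh, h0, fun v hv hv' => ?_⟩
  obtain ⟨w, hw, e⟩ := inj_lift hL (mem_Kg.1 hh).2.2 hv
  rw [e, hexp] at hv'
  have h1 := hrel v hv w hw e (inj_mem hd1 hv)
  rw [(hd1.ker w hw).2 hv'] at h1
  have h2 : K ⟨d1 v, inj_mem hd1 hv⟩ = K 0 := by
    rw [map_zero]
    exact Subtype.ext h1
  have h3 := congrArg Subtype.val (hinj h2)
  exact (hd1.ker v hv).1 h3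

end

end Pool.Agent.Lib.MP_89bcae_ag.Xg
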