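import Mathlib
import Pool.Agent.Lib.MP_89bcae_ag.Xg.Chain

/-!
# Theorem G: the levels (row G12)
-/

open scoped Classical

namespace Pool.Agent.Lib.MP_89bcae_ag.Xg

section

variable {r : ℕ}

variable {L : ℕ → AddSubgroup (Md r)}

private lemma Lev_mul_apply (a b : Au r) (v : Md r) : (a * b) v = a (b v) := rfl

/-- G12 (file `Xg/Lev.lean`). -/
theorem Lev.mul_near (hL : IsChain L) {i : ℕ} {a b : Au r} (h : Lev L i a) (hb : IsNear L (2 * i + 2) b)
    (hst : ∀ j, ∀ v ∈ L j, b v ∈ L j) : Lev L i (a * b) := by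
  have key : ∀ j, ∀ v ∈ L j, ∀ n, n ≤ j + (2 * i + 2) → (a * b) v - v ∈ L n → a v - v ∈ L n := by
    intro j v hv n hn h1
    have h2 : a (b v - v) ∈ L n := hL.anti hn (h.near.stable hL _ _ (hb j v hv))
    have h3 := (L n).sub_mem h1 h2
    rw [Lev_mul_apply, map_sub] at h3
    have e : a (b v) - v - (a (b v) - a v) = a v - v := by abel
    rwa [e] at h3
  refine ⟨h.near.mul (hb.mono hL (by omega)) hst, fun v hv h1 => ?_, fun v hv h1 => ?_⟩
  · exact h.inj0 v hv (key 0 v hv _ (by omega) h1)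
  · exact h.inj1 v hv (key 1 v hv _ (by omega) h1)

/-- G12. -/
theorem Lev.near_mul (hL : IsChain L) {i : ℕ} {a b : Au r} (h : Lev L i a) (hb : IsNear L (2 * i + 2) b)
    (hst : ∀ j, ∀ v ∈ L j, a v ∈ L j) : Lev L i (b * a) := by
  have key : ∀ j, ∀ v ∈ L j, ∀ n, n ≤ j + (2 * i + 2) → (b * a) v - v ∈ L n → a v - v ∈ L n := by
    intro j v hv n hn h1
    have h2 : b (a v) - a v ∈ L n := hL.anti hn (hb j _ (hst j v hv))
    have h3 := (L n).sub_mem h1 h2
    rw [Lev_mul_apply] at h3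
    have e : b (a v) - v - (b (a v) - a v) = a v - v := by abel
    rwa [e] at h3
  refine ⟨(hb.mono hL (by omega)).mul h.near hst, fun v hv h1 => ?_, fun v hv h1 => ?_⟩
  · exact h.inj0 v hv (key 0 v hv _ (by omega) h1)
  · exact h.inj1 v hv (key 1 v hv _ (by omega) h1)

private lemma Lev_sq_eq (a : Au r) (v : Md r) :
    (a ^ 2) v - v = (a (a v - v) - (a v - v)) + ((a v - v) + (a v - v)) := by
  have h1 : (a ^ 2) v = a (a v) := by rw [pow_two]; rfl
  rw [h1, map_sub]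
  abel

private lemma Lev_near_sq (hL : IsChain L) {i : ℕ} (hi : 2 ≤ i) {a : Au r} (ha : IsNear L (2 * i) a) :
    IsNear L (2 * (i + 1)) (a ^ 2) := by
  intro j v hv
  rw [Lev_sq_eq]
  refine (L _).add_mem (hL.anti (by omega) (ha _ _ (ha j v hv))) ?_
  rw [show j + 2 * (i + 1) = (j + 2 * i) + 2 by ring, hL.add_self_iff]
  exact ha j v hv

private lemma Lev_down (hL : IsChain L) {i : ℕ} {a : Au r} (ha : IsNear L (2 * i) a) {j n : ℕ} {v : Md r}
    (hv : v ∈ L j) (hn : n + 2 ≤ j + 2 * i + 2 * i) (h : (a ^ 2) v - v ∈ L (n + 2)) : a v - v ∈ L n := by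
  rw [Lev_sq_eq] at h
  have h1 : a (a v - v) - (a v - v) ∈ L (n + 2) := hL.anti hn (ha _ _ (ha j v hv))
  have h2 := (L (n + 2)).sub_mem h h1
  rw [add_sub_cancel_left, hL.add_self_iff] at h2
  exact h2

private lemma Lev.sq (hL : IsChain L) {i : ℕ} (hi : 2 ≤ i) {a : Au r} (h : Lev L i a) :
    Lev L (i + 1) (a ^ 2) := by
  refine ⟨Lev_near_sq hL hi h.near, fun v hv h1 => ?_, fun v hv h1 => ?_⟩
  · refine h.inj0 v hv (Lev_down hL h.near hv (n := 2 * i + 1) (by omega) ?_)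
    rwa [show 2 * i + 1 + 2 = 2 * (i + 1) + 1 by ring]
  · refine h.inj1 v hv (Lev_down hL h.near hv (n := 2 * i + 2) (by omega) ?_)
    rwa [show 2 * i + 2 + 2 = 2 * (i + 1) + 2 by ring]

private lemma Lev_near_pow (hL : IsChain L) {j : ℕ} {a : Au r} (ha : IsNear L j a) (m : ℕ) :
    IsNear L j (a ^ m) := by
  induction m with
  | zero =>
    rw [pow_zero]
    exact near_one j
  | succ m ih =>
    rw [pow_succ]
    exact ih.mul ha (ha.stable hL)

/-- G12: the powers. -/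
theorem Lev.pow (hL : IsChain L) {i : ℕ} (hi : 2 ≤ i) {a : Au r} (h : Lev L i a) {m : ℕ} (hm : 0 < m) :
    ∃ j, 2 ≤ j ∧ Lev L j (a ^ m) := by
  induction m using Nat.strong_induction_on generalizing i a with
  | _ m ih =>
    obtain ⟨k, hk | hk⟩ := Nat.even_or_odd' m
    · obtain ⟨j, hj, hj'⟩ := ih k (by omega) (i := i + 1) (by omega) (h.sq hL hi) (by omega)
      refine ⟨j, hj, ?_⟩
      rw [hk, pow_mul]
      exact hj'
    · refine ⟨i, hi, ?_⟩
      have h1 : IsNear L (2 * i + 2) (a ^ (2 * k)) := by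
        have h2 := Lev_near_pow hL (Lev_near_sq hL hi h.near) k
        rw [← pow_mul] at h2
        exact h2
      rw [hk, pow_succ']
      exact h.mul_near hL h1 (h1.stable hL)

private lemma Lev_zero {c : ℤ_[2]} (h : ∀ n : ℕ, ∃ d, c = (2 : ℤ_[2]) ^ n * d) : c = 0 := by
  rw [← norm_eq_zero]
  refine le_antisymm ?_ (norm_nonneg _)
  refine ge_of_tendsto' (tendsto_pow_atTop_nhds_zero_of_lt_one (r := (1 / 2 : ℝ)) (by norm_num) (by norm_num))
    fun n => ?_
  obtain ⟨d, hd⟩ := h n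
  have h2 : ‖(2 : ℤ_[2])‖ = 1 / 2 := by
    have := PadicInt.norm_p (p := 2)
    norm_num at this ⊢
    exact this
  rw [hd, norm_mul, norm_pow, h2]
  have h3 : (0 : ℝ) ≤ (1 / 2 : ℝ) ^ n := by positivity
  calc (1 / 2 : ℝ) ^ n * ‖d‖ ≤ (1 / 2 : ℝ) ^ n * 1 := mul_le_mul_of_nonneg_left (PadicInt.norm_le_one d) h3
    _ = (1 / 2 : ℝ) ^ n := mul_one _

/-- G12: there is no fixed vector. -/
theorem Lev.fix (hL : IsChain L) {i : ℕ} {a : Au r} (h : Lev L i a) {v : Md r} (hv : a v = v) : v = 0 := by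
  have key : ∀ n : ℕ, ∀ w ∈ L 0, a w = w → w ∈ L (0 + 2 * n) := by
    intro n
    induction n with
    | zero => exact fun w hw _ => by simpa using hw
    | succ n ih =>
      intro w hw haw
      have h0 : a w - w = 0 := by rw [haw, sub_self]
      have h1 : w ∈ L 1 := h.inj0 w hw (by rw [h0]; exact (L _).zero_mem)
      have h2 : w ∈ L 2 := h.inj1 w h1 (by rw [h0]; exact (L _).zero_mem)
      obtain ⟨u, hu, rfl⟩ := (hL.two 0 w).1 h2
      have h3 : a u = u := by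
        rw [map_add] at haw
        exact add_self_inj haw
      rw [show 0 + 2 * (n + 1) = (0 + 2 * n) + 2 by ring, hL.add_self_iff]
      exact ih u hu h3
  obtain ⟨k, hk⟩ := hL.big
  have h1 : (2 : ℤ_[2]) ^ k • v = 0 := by
    funext s
    refine Lev_zero fun n => ?_
    obtain ⟨w, -, hw⟩ := hL.exists_pow (key n _ (hk v) (by rw [map_smul, hv]))
    exact ⟨w s, by rw [hw]; rfl⟩
  exact (smul_eq_zero.1 h1).resolve_left (pow_ne_zero k two_ne_zero)

/-- G12: the product of an automorphism with leading term `(0, d)` and of one with leading term `(b, 0)`. -/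
theorem Lev.of_mul (hL : IsChain L) {i : ℕ} (hi : 1 ≤ i) {a b : Au r} (hst : ∀ j, ∀ v ∈ L j, b v ∈ L j)
    (ha : IsNear L (2 * i) a) (hb : IsNear L (2 * i) b) (ha0 : ∀ v ∈ L 0, a v - v ∈ L (2 * i + 1))
    (ha1 : ∀ v ∈ L 1, a v - v ∈ L (2 * i + 2) → v ∈ L 2) (hb0 : ∀ v ∈ L 0, b v - v ∈ L (2 * i + 1) → v ∈ L 1)
    (hb1 : ∀ v ∈ L 1, b v - v ∈ L (2 * i + 2)) : Lev L i (a * b) := by
  refine ⟨ha.mul hb hst, fun v hv h1 => ?_, fun v hv h1 => ?_⟩
  · refine hb0 v hv ?_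
    have h2 := (L _).sub_mem h1 (ha0 _ (hst 0 v hv))
    rw [Lev_mul_apply] at h2
    have e : a (b v) - v - (a (b v) - b v) = b v - v := by abel
    rwa [e] at h2
  · have h2 := (L _).sub_mem h1 (hb1 v hv)
    rw [Lev_mul_apply] at h2
    have e : a (b v) - v - (b v - v) = a (b v) - b v := by abel
    rw [e] at h2
    have h3 := ha1 _ (hst 1 v hv) h2
    have h4 := (L 2).sub_mem h3 (hL.anti (by omega) (hb1 v hv))
    rwa [sub_sub_cancel] at h4

/-- G12: the squares of an automorphism with leading term `(0, d)`. -/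
theorem half_sq (hL : IsChain L) {i : ℕ} (hi : 2 ≤ i) {a : Au r} (ha : IsNear L (2 * i) a)
    (ha0 : ∀ v ∈ L 0, a v - v ∈ L (2 * i + 1)) (ha1 : ∀ v ∈ L 1, a v - v ∈ L (2 * i + 2) → v ∈ L 2) :
    IsNear L (2 * (i + 1)) (a ^ 2) ∧ (∀ v ∈ L 0, (a ^ 2) v - v ∈ L (2 * (i + 1) + 1)) ∧
      ∀ v ∈ L 1, (a ^ 2) v - v ∈ L (2 * (i + 1) + 2) → v ∈ L 2 := by
  refine ⟨Lev_near_sq hL hi ha, fun v hv => ?_, fun v hv h1 => ?_⟩
  · rw [Lev_sq_eq]
    refine (L _).add_mem (hL.anti (by omega) (ha _ _ (ha 0 v hv))) ?_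
    rw [show 2 * (i + 1) + 1 = (2 * i + 1) + 2 by ring, hL.add_self_iff]
    exact ha0 v hv
  · refine ha1 v hv (Lev_down hL ha hv (n := 2 * i + 2) (by omega) ?_)
    rwa [show 2 * i + 2 + 2 = 2 * (i + 1) + 2 by ring]

end

end Pool.Agent.Lib.MP_89bcae_ag.Xg
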