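import Mathlib
import Pool.Agent.Lib.MP_89bcae_ag.Xg.Chain
import Pool.Agent.Lib.MP_89bcae_ag.Xg.Cent
import Pool.Agent.Lib.MP_89bcae_ag.Xg.Inj
import Pool.Agent.Lib.MP_89bcae_ag.Xg.Clo
import Pool.Agent.Lib.MP_89bcae_ag.Xg.Lev

/-!
# Theorem G
-/

open scoped Classical

namespace Pool.Agent.Lib.MP_89bcae_ag.Xg

open Pool.Agent.Lib.MP_89bcae_ag.Xs (Cst)

section

variable {r : ℕ} {G X : Type} [Group G] [Fintype X]

/-- The heart `A / B` and the heart `2 A / 2 B`. -/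
lemma IsHrt.double {a : G →* Au r} {q : G →* Equiv.Perm X} {A B A' B' : AddSubgroup (Md r)}
    {d : Md r → (X → ZMod 2) ⧸ Cst X} (h : IsHrt a q A B d) (hA : ∀ v, v ∈ A' ↔ ∃ w ∈ A, v = w + w)
    (hB : ∀ v, v ∈ B' ↔ ∃ w ∈ B, v = w + w) : ∃ d', IsHrt a q A' B' d' := by
  set d' : Md r → (X → ZMod 2) ⧸ Cst X := fun v => if h : ∃ w, v = w + w then d (Classical.choose h) else 0 with hd'
  have key : ∀ w, d' (w + w) = d w := by
    intro w
    have h1 : ∃ w', w + w = w' + w' := ⟨w, rfl⟩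
    have h2 : d' (w + w) = d (Classical.choose h1) := dif_pos h1
    rw [h2, ← add_self_inj (Classical.choose_spec h1)]
  refine ⟨d', ⟨?_, ?_, ?_, ?_⟩⟩
  · intro v hv w hw
    obtain ⟨v', hv', rfl⟩ := (hA v).1 hv
    obtain ⟨w', hw', rfl⟩ := (hA w).1 hw
    rw [show v' + v' + (w' + w') = (v' + w') + (v' + w') by abel, key, key, key, h.add _ hv' _ hw']
  · intro v hv
    obtain ⟨v', hv', rfl⟩ := (hA v).1 hv
    rw [key, h.ker _ hv', hB]
    constructor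
    · exact fun h1 => ⟨v', h1, rfl⟩
    · rintro ⟨w, hw, h1⟩
      rwa [add_self_inj h1]
  · intro v hv
    obtain ⟨v', hv', rfl⟩ := (hA v).1 hv
    rw [key]
    exact h.sum _ hv'
  · intro g v hv f hf
    obtain ⟨v', hv', rfl⟩ := (hA v).1 hv
    rw [key] at hf
    rw [map_add, key]
    exact h.act g _ hv' f hf

end

section

variable {r : ℕ} {G X Y : Type} [Group G] [Fintype X] [Fintype Y]

/-- For all large levels there is an element with leading term `(0, d)`, where `d` is injective. -/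
theorem exists_half {a : G →* Au r} {qX : G →* Equiv.Perm X} {qY : G →* Equiv.Perm Y} {L : ℕ → AddSubgroup (Md r)}
    (hL : IsChain L) {hst : ∀ g i, ∀ v ∈ L i, a g v ∈ L i} (hK : IsFilt (Kg a qX qY L hst))
    (hq : ∀ g h, ∃ x, qX x = g ∧ qY x = h) {d0 : Md r → (X → ZMod 2) ⧸ Cst X} {d1 : Md r → (Y → ZMod 2) ⧸ Cst Y}
    (hd0 : IsHrt a qX (L 0) (L 1) d0) (hd1 : IsHrt a qY (L 1) (L 2) d1)
    (hX : 6 ≤ Fintype.card X) (hX' : Even (Fintype.card X)) (hY : 4 ∣ Fintype.card Y) (hY' : 8 ≤ Fintype.card Y) :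
    ∃ i, 2 ≤ i ∧ ∀ N, i ≤ N → ∃ g ∈ Kg a qX qY L hst (2 * N), (∀ v ∈ L 0, a g v - v ∈ L (2 * N + 1)) ∧
      ∀ v ∈ L 1, a g v - v ∈ L (2 * N + 2) → v ∈ L 2 := by
  have h1 : ∃ i, 2 ≤ i ∧ ∃ g ∈ Kg a qX qY L hst (2 * i), (∀ v ∈ L 0, a g v - v ∈ L (2 * i + 1)) ∧
      ∀ v ∈ L 1, a g v - v ∈ L (2 * i + 2) → v ∈ L 2 := by
    by_cases hne : L 1 ≤ L 2
    · refine ⟨2, le_rfl, 1, Subgroup.one_mem _, fun v _ => ?_, fun v hv _ => hne hv⟩
      rw [map_one]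
      show v - v ∈ _
      rw [sub_self]
      exact (L _).zero_mem
    · obtain ⟨i, hi, g, hg, hg'⟩ := cent hL hK hq hd0 hd1 hX hX' hY hY' hne 2
      obtain ⟨h, hh, h1, h2⟩ := exists_inj hL hq hd0 hd1 (by omega)
        (even_iff_two_dvd.2 ((by norm_num : 2 ∣ 4).trans hY)) (by omega) hg hg'
      exact ⟨i, hi, h, hh, h1, h2⟩
  obtain ⟨i, hi, g, hg, hg1, hg2⟩ := h1
  refine ⟨i, hi, fun N hN => ?_⟩
  induction N, hN using Nat.le_induction with
  | base => exact ⟨g, hg, hg1, hg2⟩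
  | succ N hN ih =>
    obtain ⟨h, hh, h1, h2⟩ := ih
    obtain ⟨h3, h4, h5⟩ := half_sq hL (by omega) hh.2.2 h1 h2
    refine ⟨h ^ 2, ⟨by rw [map_pow, hh.1, one_pow], by rw [map_pow, hh.2.1, one_pow], ?_⟩, ?_, ?_⟩
    · rw [map_pow]
      exact h3
    · rw [map_pow]
      exact h4
    · rw [map_pow]
      exact h5

/-- The multiplication by `2`. -/
private noncomputable def dbl (r : ℕ) : Md r →+ Md r := AddMonoidHom.id (Md r) + AddMonoidHom.id (Md r)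

private lemma dbl_apply (v : Md r) : dbl r v = v + v := rfl

/-- The chain of a subgroup. -/
private noncomputable def chn (H : AddSubgroup (Md r)) : ℕ → AddSubgroup (Md r)
  | 0 => ⊤
  | 1 => H
  | n + 2 => (chn H n).map (dbl r)

private lemma chn_two (H : AddSubgroup (Md r)) (i : ℕ) (v : Md r) :
    v ∈ chn H (i + 2) ↔ ∃ w ∈ chn H i, v = w + w := by
  show v ∈ (chn H i).map (dbl r) ↔ _
  rw [AddSubgroup.mem_map]
  constructor
  · rintro ⟨w, hw, h⟩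
    exact ⟨w, hw, h.symm⟩
  · rintro ⟨w, hw, h⟩
    exact ⟨w, hw, h.symm⟩

private lemma chn_le {H : AddSubgroup (Md r)} (hH : ∀ v, v + v ∈ H) : ∀ i, chn H (i + 1) ≤ chn H i
  | 0 => le_top
  | 1 => by
    intro v hv
    obtain ⟨w, _, rfl⟩ := (chn_two H 0 v).1 hv
    exact hH w
  | i + 2 => AddSubgroup.map_mono (chn_le hH i)

private lemma chn_chain {H : AddSubgroup (Md r)} (hH : ∀ v, v + v ∈ H) : IsChain (chn H) where
  le := chn_le hH
  two := chn_two H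
  big := ⟨0, fun _ => AddSubgroup.mem_top _⟩

private lemma chn_stable {H : AddSubgroup (Md r)} {a : Au r} (hst : ∀ v ∈ H, a v ∈ H) : ∀ i, ∀ v ∈ chn H i, a v ∈ chn H i
  | 0 => fun _ _ => AddSubgroup.mem_top _
  | 1 => hst
  | i + 2 => by
    intro v hv
    obtain ⟨w, hw, rfl⟩ := (chn_two H i v).1 hv
    rw [map_add]
    exact (chn_two H i _).2 ⟨_, chn_stable hst i w hw, rfl⟩

/-- Theorem G. -/
theorem exists_free {Γ : Type} [Group Γ] (A : Γ →* Au r) (qX : Γ →* Equiv.Perm X) (qY : Γ →* Equiv.Perm Y)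
    (hq : ∀ g h, ∃ x, qX x = g ∧ qY x = h) {H : AddSubgroup (Md r)} (hH : ∀ v, v + v ∈ H)
    (hst : ∀ g, ∀ v ∈ H, A g v ∈ H) {d0 : Md r → (X → ZMod 2) ⧸ Cst X} {d1 : Md r → (Y → ZMod 2) ⧸ Cst Y}
    (hd0 : IsHrt A qX ⊤ H d0)
    (hd1 : IsHrt A qY H (AddMonoidHom.range (AddMonoidHom.id (Md r) + AddMonoidHom.id (Md r))) d1)
    (hX : 4 ∣ Fintype.card X) (hX' : 8 ≤ Fintype.card X) (hY : 4 ∣ Fintype.card Y) (hY' : 8 ≤ Fintype.card Y) :
    ∃ γ : Γ, ∀ m : ℕ, 0 < m → ∀ v, A (γ ^ m) v = v → v = 0 := by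
  set L : ℕ → AddSubgroup (Md r) := chn H with hLdef
  have hL : IsChain L := chn_chain hH
  have hstL : ∀ g i, ∀ v ∈ L i, A g v ∈ L i := fun g => chn_stable (hst g)
  have hd1' : IsHrt A qY (L 1) (L 2) d1 := by
    have h1 : L 2 = AddMonoidHom.range (AddMonoidHom.id (Md r) + AddMonoidHom.id (Md r)) :=
      (AddMonoidHom.range_eq_map _).symm
    rw [h1]
    exact hd1
  have hd0' : IsHrt A qX (L 0) (L 1) d0 := hd0
  -- the closed group
  set a : Cl A qX qY L hstL →* Au r := (MonoidHom.fst _ _).comp (Cl A qX qY L hstL).subtype with ha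
  set pX : Cl A qX qY L hstL →* Equiv.Perm X :=
    ((MonoidHom.fst _ _).comp (MonoidHom.snd _ _)).comp (Cl A qX qY L hstL).subtype with hpX
  set pY : Cl A qX qY L hstL →* Equiv.Perm Y :=
    ((MonoidHom.snd _ _).comp (MonoidHom.snd _ _)).comp (Cl A qX qY L hstL).subtype with hpY
  have hst' : ∀ g i, ∀ v ∈ L i, a g v ∈ L i := fun g i v hv => g.2.1 i v hv
  have hK : IsFilt (Kg a pX pY L hst') := filt_Cl A qX qY hL hstL
  have happ : ∀ (x : Cl A qX qY L hstL) (j : ℕ), ∃ γ, qX γ = pX x ∧ qY γ = pY x ∧ IsNear L j (A γ * (a x)⁻¹) :=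
    fun x j => x.2.2.2 j
  have happ' : ∀ (x : Cl A qX qY L hstL) (j : ℕ), ∃ γ, qX γ = pX x ∧ qY γ = pY x ∧
      ∀ i, ∀ v ∈ L i, A γ v - a x v ∈ L (i + j) := by
    intro x j
    obtain ⟨γ, h1, h2, h3⟩ := happ x j
    refine ⟨γ, h1, h2, fun i v hv => ?_⟩
    have h4 := h3 i (a x v) (hst' x i v hv)
    have h5 : (A γ * (a x)⁻¹ : Au r) (a x v) = A γ v := by
      show A γ ((a x)⁻¹ (a x v)) = A γ v
      congr 1
      exact LinearEquiv.symm_apply_apply (a x) v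
    rwa [h5] at h4
  have hq' : ∀ g h, ∃ x, pX x = g ∧ pY x = h := by
    intro g h
    obtain ⟨γ, h1, h2⟩ := hq g h
    refine ⟨⟨(A γ, g, h), fun i v hv => hstL γ i v hv, fun i v hv => ?_, fun j => ⟨γ, h1, h2, ?_⟩⟩, rfl, rfl⟩
    · show (A γ)⁻¹ v ∈ _
      rw [← map_inv]
      exact hstL _ i v hv
    · show IsNear L j (A γ * (A γ)⁻¹)
      rw [mul_inv_cancel]
      exact near_one j
  -- the hearts
  have hcl0 : IsHrt a pX (L 0) (L 1) d0 := by
    refine ⟨hd0'.add, hd0'.ker, hd0'.sum, fun x v hv f hf => ?_⟩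
    obtain ⟨γ, h1, _, h3⟩ := happ' x 1
    have h4 := hd0'.act γ v hv f hf
    rw [h1] at h4
    rw [← h4]
    have h5 : A γ v - a x v ∈ L 1 := by simpa using h3 0 v hv
    have h6 : d0 (A γ v) = d0 (a x v) + d0 (A γ v - a x v) := by
      rw [← hd0'.add _ (hst' x 0 v hv) _ ((L 0).sub_mem (hstL γ 0 v hv) (hst' x 0 v hv)), add_sub_cancel]
    rw [h6, (hd0'.ker _ ((L 0).sub_mem (hstL γ 0 v hv) (hst' x 0 v hv))).2 h5, add_zero]
  have hcl1 : IsHrt a pY (L 1) (L 2) d1 := by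
    refine ⟨hd1'.add, hd1'.ker, hd1'.sum, fun x v hv f hf => ?_⟩
    obtain ⟨γ, _, h2, h3⟩ := happ' x 1
    have h4 := hd1'.act γ v hv f hf
    rw [h2] at h4
    rw [← h4]
    have h5 : A γ v - a x v ∈ L 2 := h3 1 v hv
    have h6 : d1 (A γ v) = d1 (a x v) + d1 (A γ v - a x v) := by
      rw [← hd1'.add _ (hst' x 1 v hv) _ ((L 1).sub_mem (hstL γ 1 v hv) (hst' x 1 v hv)), add_sub_cancel]
    rw [h6, (hd1'.ker _ ((L 1).sub_mem (hstL γ 1 v hv) (hst' x 1 v hv))).2 h5, add_zero]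
  obtain ⟨d2, hcl2⟩ := hcl0.double (hL.two 0) (hL.two 1)
  -- the two kinds of elements
  have hXe : Even (Fintype.card X) := even_iff_two_dvd.2 ((by norm_num : 2 ∣ 4).trans hX)
  have hYe : Even (Fintype.card Y) := even_iff_two_dvd.2 ((by norm_num : 2 ∣ 4).trans hY)
  obtain ⟨i1, hi1, hG1⟩ := exists_half hL hK hq' hcl0 hcl1 (by omega) hXe hY hY'
  have hst'' : ∀ g i, ∀ v ∈ (fun i => L (i + 1)) i, a g v ∈ (fun i => L (i + 1)) i :=
    fun g i v hv => hst' g (i + 1) v hv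
  have hKK : Kg a pY pX (fun i => L (i + 1)) hst'' = Kg a pX pY L hst' := by
    funext j
    ext g
    rw [mem_Kg, mem_Kg, near_shift hL]
    tauto
  obtain ⟨i2, hi2, hG2⟩ := exists_half (a := a) (qX := pY) (qY := pX) (L := fun i => L (i + 1)) hL.shift
    (hst := hst'') (by rw [hKK]; exact hK) (fun g h => by
      obtain ⟨x, h1, h2⟩ := hq' h g
      exact ⟨x, h2, h1⟩) hcl1 hcl2 (by omega) hYe hX hX'
  set N : ℕ := max i1 i2 with hN
  obtain ⟨g1, hg1, hg1a, hg1b⟩ := hG1 N (le_max_left _ _)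
  obtain ⟨g2, hg2, hg2a, hg2b⟩ := hG2 N (le_max_right _ _)
  rw [hKK] at hg2
  have hN2 : 2 ≤ N := hi1.trans (le_max_left _ _)
  have hlev : Lev L N (a (g1 * g2)) := by
    rw [map_mul]
    refine Lev.of_mul hL (by omega) (hst' g2) hg1.2.2 hg2.2.2 hg1a hg1b (fun v hv h => ?_) fun v hv => ?_
    · have h1 : v + v ∈ L 2 := (hL.add_self_iff (i := 0)).2 hv
      have h2 : a g2 (v + v) - (v + v) ∈ L (2 * N + 2 + 1) := by
        rw [sub_add_self, show 2 * N + 2 + 1 = (2 * N + 1) + 2 by ring, hL.add_self_iff]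
        exact h
      exact (hL.add_self_iff (i := 1)).1 (hg2b _ h1 h2)
    · exact hg2a v hv
  obtain ⟨γ, _, _, hγ⟩ := happ (g1 * g2) (2 * N + 2)
  have hlev' : Lev L N (A γ) := by
    have h1 := Lev.near_mul hL hlev hγ (hst' _)
    rwa [inv_mul_cancel_right] at h1
  refine ⟨γ, fun m hm v hv => ?_⟩
  rw [map_pow] at hv
  obtain ⟨j, _, hj⟩ := hlev'.pow hL hN2 hm
  exact hj.fix hL hv

end

end Pool.Agent.Lib.MP_89bcae_ag.Xg
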