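import Mathlib
import Pool.Agent.Lib.MP_89bcae_ag.Xe.DefsM
import Pool.Agent.Lib.MP_89bcae_ag.Xg.Thm

/-!
# Theorem G in the form used for the surfaces
-/

open scoped Classical

namespace Pool.Agent.Lib.MP_89bcae_ag.Xe

open Pool.Agent.Lib.MP_89bcae_ag.Xs (Cst)

private lemma wrap_add_self {X : Type} (y : (X → ZMod 2) ⧸ Cst X) : y + y = 0 := by
  obtain ⟨f, rfl⟩ := QuotientAddGroup.mk_surjective y
  rw [← QuotientAddGroup.mk_add]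
  have h : f + f = 0 := by
    funext x
    exact CharTwo.add_self_eq_zero _
  rw [h, QuotientAddGroup.mk_zero]

private lemma wrap_zero_comp {X : Type} (g : X → X) : (QuotientAddGroup.mk fun x => (0 : X → ZMod 2) (g x) : (X → ZMod 2) ⧸ Cst X) = 0 :=
  QuotientAddGroup.mk_zero _

/-- **Theorem G** (file `Xe/G.lean`). -/
theorem TwoStep.exists_elt {Γ X Y : Type} [Group Γ] [Fintype X] [Fintype Y] (hX : 4 ∣ Fintype.card X)
    (hX' : 8 ≤ Fintype.card X) (hY : 4 ∣ Fintype.card Y) (hY' : 8 ≤ Fintype.card Y)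
    {q : Γ →* Equiv.Perm X × Equiv.Perm Y} (hq : Function.Surjective q) {r : ℕ}
    {A : Γ →* ((Fin r → ℤ_[2]) ≃ₗ[ℤ_[2]] (Fin r → ℤ_[2]))}
    {dX : (Fin r → ℤ_[2]) →+ (X → ZMod 2) ⧸ Xs.Cst X} {dY : dX.ker →+ (Y → ZMod 2) ⧸ Xs.Cst Y}
    (h : TwoStep q A dX dY) : ∃ γ : Γ, ∀ m : ℕ, 0 < m → ∀ v, A (γ ^ m) v = v → v = 0 := by
  have hst : ∀ g, ∀ v ∈ dX.ker, A g v ∈ dX.ker := by
    intro g v hv
    have h1 : dX v = QuotientAddGroup.mk (0 : X → ZMod 2) := by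
      rw [QuotientAddGroup.mk_zero]
      exact hv
    have h2 := h.actX g v 0 h1
    rw [AddMonoidHom.mem_ker, h2]
    exact wrap_zero_comp _
  obtain ⟨d1, hd1⟩ : ∃ d1 : (Fin r → ℤ_[2]) → (Y → ZMod 2) ⧸ Cst Y,
      ∀ (v : Fin r → ℤ_[2]) (hv : v ∈ dX.ker), d1 v = dY ⟨v, hv⟩ :=
    ⟨fun v => if hv : v ∈ dX.ker then dY ⟨v, hv⟩ else 0, fun v hv => dif_pos hv⟩
  refine Xg.exists_free A ((MonoidHom.fst _ _).comp q) ((MonoidHom.snd _ _).comp q) (fun g g' => ?_) (H := dX.ker)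
    (fun v => ?_) hst (d0 := dX) (d1 := d1) ⟨fun v _ w _ => map_add dX v w, fun v _ => Iff.rfl, fun v _ => ?_, ?_⟩
    ⟨fun v hv w hw => ?_, fun v hv => ?_, fun v hv => ?_, fun g v hv f hf => ?_⟩ hX hX' hY hY'
  · obtain ⟨x, hx⟩ := hq (g, g')
    exact ⟨x, congrArg Prod.fst hx, congrArg Prod.snd hx⟩
  · rw [AddMonoidHom.mem_ker, map_add]
    exact wrap_add_self _
  · rcases h.ranX with h0 | h0
    · exact ⟨0, by simp, by rw [h0, QuotientAddGroup.mk_zero]⟩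
    · obtain ⟨f, hf, hf'⟩ := (h0 (dX v)).1 ⟨v, rfl⟩
      exact ⟨f, hf, hf'.symm⟩
  · exact fun g v _ f hf => h.actX g v f hf
  · rw [hd1 v hv, hd1 w hw, hd1 (v + w) (dX.ker.add_mem hv hw), ← map_add]
    rfl
  · rw [hd1 v hv, h.ker]
    constructor
    · rintro ⟨w, hw⟩
      exact ⟨w, hw.symm⟩
    · rintro ⟨w, hw⟩
      exact ⟨w, hw.symm⟩
  · rw [hd1 v hv]
    rcases h.ranY with h0 | h0
    · exact ⟨0, by simp, by rw [h0, QuotientAddGroup.mk_zero]⟩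
    · obtain ⟨f, hf, hf'⟩ := (h0 (dY ⟨v, hv⟩)).1 ⟨_, rfl⟩
      exact ⟨f, hf, hf'.symm⟩
  · rw [hd1 v hv] at hf
    rw [hd1 _ (hst g v hv)]
    exact h.actY g ⟨v, hv⟩ ⟨A g v, hst g v hv⟩ f rfl hf

end Pool.Agent.Lib.MP_89bcae_ag.Xe
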